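import Mathlib

/-!
# Elementary asymptotics used for the domination game
-/

namespace Pool.Agent.Work.MP_dfc2f8_pr

open Filter Topology

lemma pe (c : ℝ) (hc : 0 < c) (m : ℕ) :
    Tendsto (fun L : ℝ => L ^ m * Real.exp (-(c * L))) atTop (𝓝 0) := by
  have h1 := (Real.tendsto_pow_mul_exp_neg_atTop_nhds_zero m).comp
    (tendsto_id.const_mul_atTop hc)
  have h2 := h1.const_mul ((c ^ m)⁻¹)
  rw [mul_zero] at h2
  refine h2.congr (fun L => ?_)
  simp only [Function.comp, id]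
  rw [mul_pow]
  field_simp

lemma pe0 (c : ℝ) (hc : 0 < c) :
    Tendsto (fun L : ℝ => Real.exp (-(c * L))) atTop (𝓝 0) := by
  simpa using pe c hc 0

/-- the failure probability bound, as a function of `L = log n` -/
noncomputable def DD (η c₀ ℓ : ℝ) (L : ℝ) : ℝ :=
  let e := Real.exp (4 * c₀ * η * (L ^ 3 * Real.exp (-L)))
  let B := Real.exp (4 * c₀ * Real.exp ℓ * (L ^ 2 * Real.exp (-(ℓ * η / 2 * L))))
  let X := 2 * η ^ 2 * (L ^ 2 * Real.exp (-L))
  let C := Real.exp (-(2 * L))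
  4 * (e * (B + η * L * (X * B + C)) - 1) + e * ((η * L) ^ 2 * (X * B + C)) / Real.exp (-(L / 2)) +
    e * ((η * L) ^ 3 * (X ^ 2 * B + C)) / Real.exp (-(3 * L / 2))

lemma DD_tendsto (η c₀ ℓ : ℝ) (hη : 0 < η) (hℓ : 0 < ℓ) :
    Tendsto (DD η c₀ ℓ) atTop (𝓝 0) := by
  have he : Tendsto (fun L : ℝ => Real.exp (4 * c₀ * η * (L ^ 3 * Real.exp (-L)))) atTop (𝓝 1) := by
    have h := (pe 1 one_pos 3).const_mul (4 * c₀ * η)
    rw [mul_zero] at h
    have h2 := (Real.continuous_exp.tendsto 0).comp h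
    rw [Real.exp_zero] at h2
    refine h2.congr (fun L => ?_)
    simp
  have hB : Tendsto (fun L : ℝ => Real.exp (4 * c₀ * Real.exp ℓ *
      (L ^ 2 * Real.exp (-(ℓ * η / 2 * L))))) atTop (𝓝 1) := by
    have h := (pe (ℓ * η / 2) (by positivity) 2).const_mul (4 * c₀ * Real.exp ℓ)
    rw [mul_zero] at h
    have h2 := (Real.continuous_exp.tendsto 0).comp h
    rw [Real.exp_zero] at h2
    exact h2
  -- L * (X B + C) → 0
  have h1 : Tendsto (fun L : ℝ => η * (2 * η ^ 2 * (L ^ 3 * Real.exp (-(1 * L))) *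
      Real.exp (4 * c₀ * Real.exp ℓ * (L ^ 2 * Real.exp (-(ℓ * η / 2 * L)))) +
      L ^ 1 * Real.exp (-(2 * L)))) atTop (𝓝 0) := by
    have := ((((pe 1 one_pos 3).const_mul (2 * η ^ 2)).mul hB).add (pe 2 two_pos 1)).const_mul η
    simpa using this
  have h2 : Tendsto (fun L : ℝ => η ^ 2 * (2 * η ^ 2 * (L ^ 4 * Real.exp (-(1 / 2 * L))) *
      Real.exp (4 * c₀ * Real.exp ℓ * (L ^ 2 * Real.exp (-(ℓ * η / 2 * L)))) +
      L ^ 2 * Real.exp (-(3 / 2 * L)))) atTop (𝓝 0) := by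
    have := ((((pe (1 / 2) (by norm_num) 4).const_mul (2 * η ^ 2)).mul hB).add
      (pe (3 / 2) (by norm_num) 2)).const_mul (η ^ 2)
    simpa using this
  have h3 : Tendsto (fun L : ℝ => η ^ 3 * (4 * η ^ 4 * (L ^ 7 * Real.exp (-(1 / 2 * L))) *
      Real.exp (4 * c₀ * Real.exp ℓ * (L ^ 2 * Real.exp (-(ℓ * η / 2 * L)))) +
      L ^ 3 * Real.exp (-(1 / 2 * L)))) atTop (𝓝 0) := by
    have := ((((pe (1 / 2) (by norm_num) 7).const_mul (4 * η ^ 4)).mul hB).add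
      (pe (1 / 2) (by norm_num) 3)).const_mul (η ^ 3)
    simpa using this
  have htot := ((((he.mul (hB.add h1)).sub_const 1).const_mul 4).add (he.mul h2)).add (he.mul h3)
  simp only [add_zero, mul_one, mul_zero, sub_self] at htot
  refine htot.congr (fun L => ?_)
  unfold DD
  simp only
  have e1 : Real.exp (-(L / 2)) ≠ 0 := (Real.exp_pos _).ne'
  have e2 : Real.exp (-(3 * L / 2)) ≠ 0 := (Real.exp_pos _).ne'
  congr 1
  · congr 1
    · rw [one_mul]; ring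
    · rw [eq_div_iff e1]
      have f1 : Real.exp (-(1 / 2 * L)) * Real.exp (-(L / 2)) = Real.exp (-L) := by
        rw [← Real.exp_add]; ring_nf
      have f2 : Real.exp (-(3 / 2 * L)) * Real.exp (-(L / 2)) = Real.exp (-(2 * L)) := by
        rw [← Real.exp_add]; ring_nf
      rw [← f1, ← f2]
      ring
  · rw [eq_div_iff e2]
    have f1 : Real.exp (-(1 / 2 * L)) * Real.exp (-(3 * L / 2)) = Real.exp (-L) ^ 2 := by
      rw [← Real.exp_add, ← Real.exp_nat_mul]; push_cast; ring_nf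
    have f2 : Real.exp (-(1 / 2 * L)) * Real.exp (-(3 * L / 2)) = Real.exp (-(2 * L)) := by
      rw [← Real.exp_add]; ring_nf
    have f3 : (2 * η ^ 2 * (L ^ 2 * Real.exp (-L))) ^ 2 = 4 * η ^ 4 * L ^ 4 * Real.exp (-L) ^ 2 := by
      ring
    rw [f3, ← f1, ← f2]
    ring

lemma log_le_eventually (c : ℝ) (hc : 0 < c) : ∀ᶠ L : ℝ in atTop, Real.log L ≤ c * L := by
  have := Real.isLittleO_log_id_atTop.bound hc
  filter_upwards [this, eventually_ge_atTop 1] with L h1 h2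
  simp only [id, Real.norm_eq_abs] at h1
  rw [abs_of_nonneg (Real.log_nonneg h2), abs_of_nonneg (by linarith)] at h1
  exact h1

lemma eventually_le_of_tendsto {f : ℝ → ℝ} (hf : Tendsto f atTop (𝓝 0)) {c : ℝ} (hc : 0 < c) :
    ∀ᶠ L : ℝ in atTop, f L ≤ c := by
  have := hf.eventually (gt_mem_nhds hc)
  filter_upwards [this] with L h
  exact h.le

/-- all needed inequalities for large `L` -/
lemma facts (η c₀ ℓ : ℝ) (b : ℕ) (hη : 0 < η) (hℓ : 0 < ℓ) (hc₀ : c₀ = η / 64) (M : ℝ) :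
    ∀ᶠ L : ℝ in atTop, 1 ≤ L ∧ M + 1 ≤ L ∧
      L / (2 * ℓ) ≤ (L - 2 * Real.log L - Real.log c₀) / ℓ ∧
      (L - 2 * Real.log L - Real.log c₀) / ℓ + 1 ≤ 2 * L / ℓ ∧
      5 ≤ η * L ∧
      2 * η ^ 2 * (L ^ 2 * Real.exp (-L)) ≤ Real.exp (-(L / 2)) ∧
      2 * L ≤ (L / 2) * (η * L / 2 - 1) - 4 * c₀ * L ^ 2 ∧
      c₀ * (L ^ 2 * Real.exp (-L)) ≤ 1 / 2 ∧
      Real.exp (-(L / 4)) * (b * (2 * L / ℓ)) + Real.exp (-(L / 4)) ≤ 1 / 4 ∧
      2 * Real.exp (-(L / 4)) < Real.exp (-(L / 8)) / 4 ∧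
      2 * (b + 1) * (2 * L / ℓ + M + 1) ^ 2 ≤ Real.exp L ∧
      M + 1 ≤ L / (2 * ℓ) := by
  have hℓ2 : (0 : ℝ) < 2 * ℓ := by positivity
  have a1 : ∀ᶠ L : ℝ in atTop, 1 ≤ L := eventually_ge_atTop 1
  have a1' : ∀ᶠ L : ℝ in atTop, M + 1 ≤ L := eventually_ge_atTop _
  have a2 : ∀ᶠ L : ℝ in atTop, L / (2 * ℓ) ≤ (L - 2 * Real.log L - Real.log c₀) / ℓ := by
    filter_upwards [log_le_eventually (1 / 8) (by norm_num), eventually_ge_atTop (4 * Real.log c₀)]
      with L h1 h2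
    rw [div_le_div_iff₀ hℓ2 hℓ]
    nlinarith
  have a3 : ∀ᶠ L : ℝ in atTop, (L - 2 * Real.log L - Real.log c₀) / ℓ + 1 ≤ 2 * L / ℓ := by
    filter_upwards [eventually_ge_atTop 1, eventually_ge_atTop (ℓ - Real.log c₀)] with L h1 h2
    rw [div_add_one hℓ.ne', div_le_div_iff_of_pos_right hℓ]
    have := Real.log_nonneg h1
    linarith
  have a4 : ∀ᶠ L : ℝ in atTop, 5 ≤ η * L := by
    filter_upwards [eventually_ge_atTop (5 / η)] with L h1
    rw [div_le_iff₀ hη] at h1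
    linarith
  have a5 : ∀ᶠ L : ℝ in atTop, 2 * η ^ 2 * (L ^ 2 * Real.exp (-L)) ≤ Real.exp (-(L / 2)) := by
    have h := (pe (1 / 2) (by norm_num) 2).const_mul (2 * η ^ 2)
    rw [mul_zero] at h
    filter_upwards [eventually_le_of_tendsto h one_pos] with L h1
    have f1 : Real.exp (-(1 / 2 * L)) * Real.exp (-(L / 2)) = Real.exp (-L) := by
      rw [← Real.exp_add]; ring_nf
    calc 2 * η ^ 2 * (L ^ 2 * Real.exp (-L))
        = (2 * η ^ 2 * (L ^ 2 * Real.exp (-(1 / 2 * L)))) * Real.exp (-(L / 2)) := by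
          rw [← f1]; ring
      _ ≤ 1 * Real.exp (-(L / 2)) := by gcongr
      _ = _ := one_mul _
  have a6 : ∀ᶠ L : ℝ in atTop, 2 * L ≤ (L / 2) * (η * L / 2 - 1) - 4 * c₀ * L ^ 2 := by
    filter_upwards [eventually_ge_atTop (40 / (3 * η)), eventually_ge_atTop 0] with L h1 h2
    rw [div_le_iff₀ (by positivity)] at h1
    rw [hc₀]
    nlinarith
  have a7 : ∀ᶠ L : ℝ in atTop, c₀ * (L ^ 2 * Real.exp (-L)) ≤ 1 / 2 := by
    have h := (pe 1 one_pos 2).const_mul c₀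
    rw [mul_zero] at h
    filter_upwards [eventually_le_of_tendsto h (by norm_num : (0 : ℝ) < 1 / 2)] with L h1
    simpa using h1
  have a8 : ∀ᶠ L : ℝ in atTop,
      Real.exp (-(L / 4)) * (b * (2 * L / ℓ)) + Real.exp (-(L / 4)) ≤ 1 / 4 := by
    have h := ((pe (1 / 4) (by norm_num) 1).const_mul (b * (2 / ℓ))).add
      (pe (1 / 4) (by norm_num) 0)
    rw [mul_zero, add_zero] at h
    filter_upwards [eventually_le_of_tendsto h (by norm_num : (0 : ℝ) < 1 / 4)] with L h1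
    have f1 : Real.exp (-(1 / 4 * L)) = Real.exp (-(L / 4)) := by ring_nf
    rw [f1] at h1
    refine le_trans (le_of_eq ?_) h1
    ring
  have a9 : ∀ᶠ L : ℝ in atTop, 2 * Real.exp (-(L / 4)) < Real.exp (-(L / 8)) / 4 := by
    have h := (pe0 (1 / 8) (by norm_num))
    filter_upwards [eventually_le_of_tendsto h (by norm_num : (0 : ℝ) < 1 / 16)] with L h1
    have f1 : Real.exp (-(1 / 8 * L)) * Real.exp (-(L / 8)) = Real.exp (-(L / 4)) := by
      rw [← Real.exp_add]; ring_nf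
    rw [← f1]
    have := Real.exp_pos (-(L / 8))
    nlinarith
  have a10 : ∀ᶠ L : ℝ in atTop, 2 * (b + 1) * (2 * L / ℓ + M + 1) ^ 2 ≤ Real.exp L := by
    have h := ((((pe 1 one_pos 2).const_mul ((2 / ℓ) ^ 2)).add
      ((pe 1 one_pos 1).const_mul (2 * (2 / ℓ) * (M + 1)))).add
      ((pe 1 one_pos 0).const_mul ((M + 1) ^ 2))).const_mul (2 * ((b : ℝ) + 1))
    rw [mul_zero, mul_zero, mul_zero, add_zero, add_zero, mul_zero] at h
    filter_upwards [eventually_le_of_tendsto h one_pos] with L h1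
    have f1 : Real.exp (-(1 * L)) * Real.exp L = 1 := by
      rw [← Real.exp_add]; ring_nf; exact Real.exp_zero
    have h2 := mul_le_mul_of_nonneg_right h1 (Real.exp_pos L).le
    refine le_trans (le_of_eq ?_) (h2.trans (le_of_eq (one_mul _)))
    calc 2 * ((b : ℝ) + 1) * (2 * L / ℓ + M + 1) ^ 2
        = (2 * ((b : ℝ) + 1) * (2 * L / ℓ + M + 1) ^ 2) * (Real.exp (-(1 * L)) * Real.exp L) := by
          rw [f1, mul_one]
      _ = _ := by ring
  have a11 : ∀ᶠ L : ℝ in atTop, M + 1 ≤ L / (2 * ℓ) := by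
    filter_upwards [eventually_ge_atTop ((M + 1) * (2 * ℓ))] with L h1
    rwa [le_div_iff₀ hℓ2]
  filter_upwards [a1, a1', a2, a3, a4, a5, a6, a7, a8, a9, a10, a11]
    with L h1 h1' h2 h3 h4 h5 h6 h7 h8 h9 h10 h11
  exact ⟨h1, h1', h2, h3, h4, h5, h6, h7, h8, h9, h10, h11⟩

end Pool.Agent.Work.MP_dfc2f8_pr
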