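import Pool.Agent.Work.MP_dfc2f8_pr.Defs

/-!
# Basic monotonicity properties of the game
-/

namespace Pool.Agent.Work.MP_dfc2f8_pr

variable {V : Type*} [DecidableEq V]

section basic

variable {b : ℕ} {Goal Goal' : Finset V → Prop}

lemma Forces.of_goal {t : ℕ} {D S : Finset V} (h : Goal D) : Forces b Goal t D S := by
  cases t with
  | zero => exact h
  | succ t => exact Or.inl h

lemma Forces.succ {t : ℕ} : ∀ {D S : Finset V}, Forces b Goal t D S → Forces b Goal (t + 1) D S := by
  induction t with
  | zero => intro D S h; exact Or.inl h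
  | succ t ih =>
    intro D S h
    rcases h with h | ⟨v, hv, hvS, h⟩
    · exact Or.inl h
    · exact Or.inr ⟨v, hv, hvS, fun T hT hT' => ih (h T hT hT')⟩

lemma Forces.mono_time {t t' : ℕ} (htt : t ≤ t') {D S : Finset V} (h : Forces b Goal t D S) :
    Forces b Goal t' D S := by
  induction htt with
  | refl => exact h
  | step _ ih => exact ih.succ

lemma Forces.mono_goal {t : ℕ} : ∀ {D S : Finset V}, (∀ D', D ⊆ D' → Goal D' → Goal' D') →
    Forces b Goal t D S → Forces b Goal' t D S := by
  induction t with
  | zero => intro D S hG h; exact hG D (Finset.Subset.refl D) h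
  | succ t ih =>
    intro D S hG h
    rcases h with h | ⟨v, hv, hvS, h⟩
    · exact Or.inl (hG D (Finset.Subset.refl D) h)
    · refine Or.inr ⟨v, hv, hvS, fun T hT hT' => ih ?_ (h T hT hT')⟩
      intro D' hD'
      exact hG D' ((Finset.subset_insert v D).trans hD')

end basic

end Pool.Agent.Work.MP_dfc2f8_pr
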