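import Pool.Agent.Work.MP_dfc2f8_pr.Basic

/-!
# A Beck-type criterion for Maker, with a second-moment loss term
-/

namespace Pool.Agent.Work.MP_dfc2f8_pr

open Finset

variable {V : Type*} [DecidableEq V]

/-- weight of a winning set -/
noncomputable def wt (b : ℕ) (M A : Finset V) : ℝ := ((1 + (b : ℝ))⁻¹) ^ (A \ M).card

/-- pair degree -/
noncomputable def pd (H : Finset (Finset V)) (x y : V) : ℝ :=
  ((H.filter (fun A => x ∈ A ∧ y ∈ A)).card : ℝ)

/-- sum of squares of the pair degrees over ordered pairs of distinct vertices of `U` -/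
noncomputable def Zs (H : Finset (Finset V)) (U : Finset V) : ℝ :=
  ∑ z ∈ U.offDiag, (pd H z.1 z.2) ^ 2

/-- potential -/
noncomputable def Ph (b : ℕ) (H : Finset (Finset V)) (M B : Finset V) : ℝ :=
  ∑ A ∈ H.filter (fun A => Disjoint A B), wt b M A

lemma wt_nonneg (b : ℕ) (M A : Finset V) : 0 ≤ wt b M A := by
  unfold wt; positivity

lemma wt_insert_of_notMem {b : ℕ} {M A : Finset V} {x : V} (hx : x ∉ A) :
    wt b (insert x M) A = wt b M A := by
  unfold wt
  congr 2
  ext y
  simp only [mem_sdiff, mem_insert, not_or]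
  constructor
  · rintro ⟨h1, _, h2⟩; exact ⟨h1, h2⟩
  · rintro ⟨h1, h2⟩; exact ⟨h1, fun h => hx (h ▸ h1), h2⟩

lemma wt_insert_of_mem {b : ℕ} {M A : Finset V} {x : V} (hx : x ∈ A) (hxM : x ∉ M) :
    wt b (insert x M) A = (1 + (b : ℝ)) * wt b M A := by
  unfold wt
  have h : (A \ M).card = (A \ insert x M).card + 1 := by
    have : A \ M = insert x (A \ insert x M) := by
      ext y
      simp only [mem_sdiff, mem_insert, not_or]
      constructor
      · rintro ⟨h1, h2⟩
        by_cases hy : y = x
        · exact Or.inl hy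
        · exact Or.inr ⟨h1, hy, h2⟩
      · rintro (h | ⟨h1, _, h2⟩)
        · subst h; exact ⟨hx, hxM⟩
        · exact ⟨h1, h2⟩
    rw [this, card_insert_of_notMem]
    simp
  rw [h, pow_succ]
  have hb : (1 + (b : ℝ)) ≠ 0 := by positivity
  field_simp

lemma b_mul_wt_le_one {b : ℕ} {M A : Finset V} {x : V} (hx : x ∈ A) (hxM : x ∉ M) :
    (b : ℝ) * wt b M A ≤ 1 := by
  unfold wt
  have h1 : 1 ≤ (A \ M).card := by
    rw [Nat.one_le_iff_ne_zero, ← Nat.pos_iff_ne_zero, card_pos]
    exact ⟨x, by simp [hx, hxM]⟩
  have hb : (0 : ℝ) < 1 + (b : ℝ) := by positivity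
  have h2 : ((1 + (b : ℝ))⁻¹) ^ (A \ M).card ≤ ((1 + (b : ℝ))⁻¹) ^ 1 := by
    apply pow_le_pow_of_le_one (by positivity) _ h1
    apply inv_le_one_of_one_le₀
    have : (0 : ℝ) ≤ b := by positivity
    linarith
  calc (b : ℝ) * ((1 + (b : ℝ))⁻¹) ^ (A \ M).card ≤ (b : ℝ) * ((1 + (b : ℝ))⁻¹) ^ 1 := by
        apply mul_le_mul_of_nonneg_left h2 (by positivity)
    _ ≤ 1 := by
        rw [pow_one, ← div_eq_mul_inv, div_le_one hb]; linarith

/-- **Beck-type criterion.** -/
theorem beck [Fintype V] (b : ℕ) (H : Finset (Finset V)) (lam : ℝ) (hlam : 0 < lam) :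
    ∀ (m : ℕ) (M B : Finset V), Disjoint M B → ((M ∪ B)ᶜ).card = m →
      lam * m + Zs H ((M ∪ B)ᶜ) / lam < Ph b H M B →
      Forces b (fun D => ∃ A ∈ H, A ⊆ D) m M B := by
  intro m
  induction m using Nat.strong_induction_on with
  | _ m ih =>
  intro M B hMB hm hlt
  by_cases hgoal : ∃ A ∈ H, A ⊆ M
  · exact Forces.of_goal hgoal
  push Not at hgoal
  have hZ0 : ∀ U : Finset V, 0 ≤ Zs H U := fun U => by unfold Zs; positivity
  have hPhpos : 0 < Ph b H M B := by
    have := hZ0 ((M ∪ B)ᶜ)
    have h2 : 0 ≤ lam * m + Zs H ((M ∪ B)ᶜ) / lam := by positivity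
    linarith
  -- the marginal potentials
  set F := H.filter (fun A => Disjoint A B) with hF
  let φ : V → ℝ := fun x => ∑ A ∈ F.filter (fun A => x ∈ A), wt b M A
  have hφ0 : ∀ x, 0 ≤ φ x := fun x => sum_nonneg (fun A _ => wt_nonneg b M A)
  -- there is an unclaimed vertex
  have hUne : ((M ∪ B)ᶜ).Nonempty := by
    have : ∃ A ∈ F, 0 < wt b M A := by
      by_contra hcon
      push Not at hcon
      have : Ph b H M B ≤ 0 := sum_nonpos hcon
      linarith
    obtain ⟨A, hA, _⟩ := this
    rw [hF, mem_filter] at hA
    have h1 := hgoal A hA.1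
    rw [Finset.not_subset] at h1
    obtain ⟨x, hxA, hxM⟩ := h1
    refine ⟨x, ?_⟩
    simp only [mem_compl, mem_union, not_or]
    exact ⟨hxM, fun hxB => (Finset.disjoint_left.mp hA.2) hxA hxB⟩
  obtain ⟨x, hxU, hxmax⟩ := exists_max_image ((M ∪ B)ᶜ) φ hUne
  have hxU' := hxU
  simp only [mem_compl, mem_union, not_or] at hxU'
  obtain ⟨hxM, hxB⟩ := hxU'
  have hmpos : 0 < m := by rw [← hm, card_pos]; exact hUne
  obtain ⟨m', rfl⟩ : ∃ m', m = m' + 1 := ⟨m - 1, by omega⟩
  refine Or.inr ⟨x, hxM, hxB, ?_⟩
  intro T hTb hT
  -- new position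
  set M' := insert x M with hM'
  set B' := B ∪ T with hB'
  have hxT : x ∉ T := fun h => (hT x h).1 rfl
  have hTM : ∀ y ∈ T, y ∉ M := fun y hy => (hT y hy).2.1
  have hTB : ∀ y ∈ T, y ∉ B := fun y hy => (hT y hy).2.2
  have hdisj' : Disjoint M' B' := by
    rw [Finset.disjoint_left]
    intro y hy hy'
    rw [hM', mem_insert] at hy
    rw [hB', mem_union] at hy'
    rcases hy with rfl | hy
    · rcases hy' with hy' | hy'
      · exact hxB hy'
      · exact hxT hy'
    · rcases hy' with hy' | hy'
      · exact (Finset.disjoint_left.mp hMB) hy hy'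
      · exact hTM y hy' hy
  set U := (M ∪ B)ᶜ with hU
  set U' := (M' ∪ B')ᶜ with hU'
  have hTU : T ⊆ U.erase x := by
    intro y hy
    rw [mem_erase]
    refine ⟨(hT y hy).1, ?_⟩
    simp only [hU, mem_compl, mem_union, not_or]
    exact ⟨hTM y hy, hTB y hy⟩
  have hU'eq : U' = (U.erase x) \ T := by
    ext y
    simp only [hU', hU, hM', hB', mem_compl, mem_union, mem_insert, mem_sdiff, mem_erase, not_or]
    tauto
  have hcard : U'.card + T.card = m' := by
    have h1 : U'.card = (U.erase x).card - T.card := by
      rw [hU'eq, card_sdiff_of_subset hTU]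
    have h2 : (U.erase x).card = m' := by
      rw [card_erase_of_mem hxU, hm]; simp
    have h3 : T.card ≤ (U.erase x).card := card_le_card hTU
    omega
  have hForces : Forces b (fun D => ∃ A ∈ H, A ⊆ D) U'.card M' B' := by
    apply ih U'.card (by omega) M' B' hdisj' rfl
    -- potential inequality
    have hZ : Zs H U' + ∑ y ∈ T, (pd H x y) ^ 2 ≤ Zs H U := by
      have hsub : U'.offDiag ∪ T.image (fun y => (x, y)) ⊆ U.offDiag := by
        intro z hz
        rw [mem_union] at hz
        rcases hz with hz | hz
        · rw [mem_offDiag] at hz ⊢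
          have hs : U' ⊆ U := by
            rw [hU'eq]; exact sdiff_subset.trans (erase_subset x U)
          exact ⟨hs hz.1, hs hz.2.1, hz.2.2⟩
        · rw [mem_image] at hz
          obtain ⟨y, hy, rfl⟩ := hz
          rw [mem_offDiag]
          have := hTU hy
          rw [mem_erase] at this
          exact ⟨hxU, this.2, fun h => this.1 h.symm⟩
      have hdis : Disjoint U'.offDiag (T.image (fun y => (x, y))) := by
        rw [Finset.disjoint_left]
        intro z hz hz'
        rw [mem_image] at hz'
        obtain ⟨y, hy, rfl⟩ := hz'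
        rw [mem_offDiag] at hz
        have : x ∈ U' := hz.1
        rw [hU'eq] at this
        simp at this
      calc Zs H U' + ∑ y ∈ T, (pd H x y) ^ 2
          = ∑ z ∈ U'.offDiag ∪ T.image (fun y => (x, y)), (pd H z.1 z.2) ^ 2 := by
            rw [sum_union hdis, sum_image]
            · rfl
            · intro a _ c _ h
              exact (Prod.mk.inj h).2
        _ ≤ Zs H U := by
            apply sum_le_sum_of_subset_of_nonneg hsub
            intros; positivity
    have hPh : Ph b H M B - ∑ y ∈ T, pd H x y ≤ Ph b H M' B' := by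
      -- Σ over F of new weights
      have e1 : ∑ A ∈ F, wt b M' A = Ph b H M B + b * φ x := by
        have : ∀ A ∈ F, wt b M' A = wt b M A + (if x ∈ A then (b : ℝ) * wt b M A else 0) := by
          intro A _
          by_cases hxA : x ∈ A
          · rw [hM', wt_insert_of_mem hxA hxM, if_pos hxA]; ring
          · rw [hM', wt_insert_of_notMem hxA, if_neg hxA, add_zero]
        rw [sum_congr rfl this, sum_add_distrib, ← sum_filter, ← mul_sum]
        rfl
      have e2 : ∀ y ∈ T, ∑ A ∈ F.filter (fun A => y ∈ A), wt b M' A ≤ φ y + pd H x y := by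
        intro y hy
        have : ∀ A ∈ F.filter (fun A => y ∈ A), wt b M' A ≤
            wt b M A + (if x ∈ A then 1 else 0) := by
          intro A hA
          by_cases hxA : x ∈ A
          · rw [hM', wt_insert_of_mem hxA hxM, if_pos hxA]
            have := b_mul_wt_le_one (b := b) hxA hxM
            linarith
          · rw [hM', wt_insert_of_notMem hxA, if_neg hxA, add_zero]
        refine (sum_le_sum this).trans ?_
        rw [sum_add_distrib]
        gcongr
        rw [← sum_filter, sum_const, nsmul_eq_mul, mul_one]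
        unfold pd
        norm_cast
        apply card_le_card
        intro A hA
        simp only [hF, mem_filter] at hA ⊢
        exact ⟨hA.1.1.1, hA.2, hA.1.2⟩
      have e3 : Ph b H M' B' ≥ ∑ A ∈ F, wt b M' A
          - ∑ y ∈ T, ∑ A ∈ F.filter (fun A => y ∈ A), wt b M' A := by
        have hb1 : ∑ A ∈ F, wt b M' A ≤ Ph b H M' B' +
            ∑ y ∈ T, ∑ A ∈ F.filter (fun A => y ∈ A), wt b M' A := by
          have hsplit : ∑ A ∈ F, wt b M' A =
              ∑ A ∈ F.filter (fun A => Disjoint A T), wt b M' A +
              ∑ A ∈ F.filter (fun A => ¬ Disjoint A T), wt b M' A := by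
            rw [sum_filter_add_sum_filter_not]
          have h1 : ∑ A ∈ F.filter (fun A => Disjoint A T), wt b M' A = Ph b H M' B' := by
            unfold Ph
            apply sum_congr _ (fun _ _ => rfl)
            ext A
            simp only [hF, hB', mem_filter, disjoint_union_right]
            tauto
          have h2 : ∑ A ∈ F.filter (fun A => ¬ Disjoint A T), wt b M' A ≤
              ∑ y ∈ T, ∑ A ∈ F.filter (fun A => y ∈ A), wt b M' A := by
            have hle : ∀ A ∈ F.filter (fun A => ¬ Disjoint A T), wt b M' A ≤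
                ∑ y ∈ T, if y ∈ A then wt b M' A else 0 := by
              intro A hA
              rw [mem_filter, Finset.not_disjoint_iff] at hA
              obtain ⟨hAF, y, hyA, hyT⟩ := hA
              have hterm : wt b M' A = (if y ∈ A then wt b M' A else 0) := by rw [if_pos hyA]
              rw [hterm]
              have := single_le_sum (f := fun y => if y ∈ A then wt b M' A else 0)
                (fun i _ => by
                  by_cases hi : i ∈ A
                  · simp only [if_pos hi]; exact wt_nonneg b M' A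
                  · simp only [if_neg hi]; exact le_rfl) hyT
              simpa [hyA] using this
            refine (sum_le_sum hle).trans ?_
            rw [sum_comm]
            apply sum_le_sum
            intro y _
            rw [← sum_filter]
            apply sum_le_sum_of_subset_of_nonneg
            · intro A hA
              simp only [mem_filter] at hA ⊢
              exact ⟨hA.1.1, hA.2⟩
            · intro A _ _
              exact wt_nonneg b M' A
          rw [hsplit, h1]
          linarith
        linarith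
      have e4 : ∑ y ∈ T, ∑ A ∈ F.filter (fun A => y ∈ A), wt b M' A ≤
          b * φ x + ∑ y ∈ T, pd H x y := by
        refine (sum_le_sum e2).trans ?_
        rw [sum_add_distrib]
        gcongr
        have : ∀ y ∈ T, φ y ≤ φ x := by
          intro y hy
          exact hxmax y ((erase_subset x U) (hTU hy))
        refine (sum_le_sum this).trans ?_
        rw [sum_const, nsmul_eq_mul]
        exact mul_le_mul_of_nonneg_right (by exact_mod_cast hTb) (hφ0 x)
      linarith
    have hAM : ∑ y ∈ T, pd H x y ≤ lam * T.card + (∑ y ∈ T, (pd H x y) ^ 2) / lam := by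
      have : ∀ y ∈ T, pd H x y ≤ lam + (pd H x y) ^ 2 / lam := by
        intro y _
        have h0 : 0 ≤ pd H x y := by unfold pd; positivity
        rcases le_total (pd H x y) lam with h | h
        · have : 0 ≤ (pd H x y) ^ 2 / lam := by positivity
          linarith
        · have : pd H x y ≤ (pd H x y) ^ 2 / lam := by
            rw [le_div_iff₀ hlam]; nlinarith
          linarith
      refine (sum_le_sum this).trans ?_
      rw [sum_add_distrib, sum_const, nsmul_eq_mul, sum_div]
      linarith [mul_comm lam (T.card : ℝ)]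
    have hc : (U'.card : ℝ) + T.card = m' := by exact_mod_cast hcard
    have hdiv : Zs H U' / lam + (∑ y ∈ T, (pd H x y) ^ 2) / lam ≤ Zs H U / lam := by
      rw [← add_div]
      exact div_le_div_of_nonneg_right hZ hlam.le
    push_cast at hlt
    nlinarith [hlt, hPh, hAM, hdiv, hc]
  exact hForces.mono_time (by omega)

end Pool.Agent.Work.MP_dfc2f8_pr
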