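import Pool.Agent.Work.MP_dfc2f8_pr.Basic

/-!
# The tree structure forced by a fast winning strategy
-/

namespace Pool.Agent.Work.MP_dfc2f8_pr

open Finset

universe u

/-- trees of depth `j` in which every node has `b+1` children, labelled by vertices -/
def LTree (V : Type u) (b : ℕ) : ℕ → Type u
  | 0 => PUnit
  | j + 1 => Fin (b + 1) → V × LTree V b j

variable {V : Type u} [DecidableEq V]

/-- number of labels of a tree of depth `j` -/
def Nj (b : ℕ) : ℕ → ℕ
  | 0 => 0
  | j + 1 => (b + 1) * (1 + Nj b j)

noncomputable instance LTree.fintype [Fintype V] (b : ℕ) : ∀ j, Fintype (LTree V b j)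
  | 0 => inferInstanceAs (Fintype PUnit)
  | j + 1 => by
      letI : Fintype (LTree V b j) := LTree.fintype b j
      exact inferInstanceAs (Fintype (Fin (b + 1) → V × LTree V b j))

omit [DecidableEq V] in
lemma card_LTree [Fintype V] (b : ℕ) : ∀ j, Fintype.card (LTree V b j) =
    (Fintype.card V) ^ (Nj b j)
  | 0 => by
      simp only [Nj, pow_zero]
      exact Fintype.card_punit
  | j + 1 => by
      have h : Fintype.card (LTree V b (j + 1)) =
          Fintype.card (Fin (b + 1) → V × LTree V b j) := rfl
      rw [h, Fintype.card_fun, Fintype.card_prod, card_LTree b j, Fintype.card_fin, Nj]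
      rw [← pow_succ', ← pow_mul]
      ring_nf

/-- the set of labels of a tree -/
def labels (b : ℕ) : ∀ j, LTree V b j → Finset V
  | 0, _ => ∅
  | j + 1, f => univ.biUnion (fun k : Fin (b + 1) => insert (f k).1 (labels b j (f k).2))

lemma card_labels (b : ℕ) : ∀ (j : ℕ) (f : LTree V b j), (labels b j f).card ≤ Nj b j
  | 0, _ => by simp [labels, Nj]
  | j + 1, f => by
      unfold labels Nj
      refine card_biUnion_le.trans ?_
      have : ∀ k ∈ (univ : Finset (Fin (b + 1))),
          (insert (f k).1 (labels b j (f k).2)).card ≤ 1 + Nj b j := by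
        intro k _
        refine (card_insert_le _ _).trans ?_
        have := card_labels b j (f k).2
        omega
      refine (sum_le_sum this).trans ?_
      simp

/-- all sets `D ∪ path` are dominating -/
def AllDom (G : SimpleGraph V) (b : ℕ) : ∀ j, LTree V b j → Finset V → Prop
  | 0, _, D => IsDominating G D
  | j + 1, f, D => ∀ k : Fin (b + 1), AllDom G b j (f k).2 (insert (f k).1 D)

/-- labels of siblings before `k` -/
def before {b j : ℕ} (f : LTree V b (j + 1)) (k : Fin (b + 1)) : Finset V :=
  (univ.filter (fun i : Fin (b + 1) => i < k)).image (fun i => (f i).1)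

/-- the tree avoids `X` and repetitions in the sense needed -/
def GoodT (b : ℕ) : ∀ j, LTree V b j → Finset V → Prop
  | 0, _, _ => True
  | j + 1, f, X => ∀ k : Fin (b + 1), (f k).1 ∉ X ∪ before f k ∧
      GoodT b j (f k).2 (insert (f k).1 (X ∪ before f k))

/-- Staller to move, and Dominator wins with `j` further moves -/
def SForces (b : ℕ) (Goal : Finset V → Prop) (j : ℕ) (D S : Finset V) : Prop :=
  ∀ T : Finset V, T.card ≤ b → (∀ x ∈ T, x ∉ D ∧ x ∉ S) → Forces b Goal j D (S ∪ T)

theorem extract [Fintype V] {G : SimpleGraph V} {b : ℕ} {Goal : Finset V → Prop}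
    (hG : ∀ D, Goal D → IsDominating G D) (hmono : ∀ D v, Goal D → Goal (insert v D)) :
    ∀ (j : ℕ) (D S : Finset V), D.card + S.card + (b + 1) * j < Fintype.card V →
      SForces b Goal j D S →
      ∃ f : LTree V b j, GoodT b j f (D ∪ S) ∧ AllDom G b j f D := by
  intro j
  induction j with
  | zero =>
    intro D S _ h
    have h0 := h ∅ (by simp) (by simp)
    exact ⟨PUnit.unit, trivial, hG D h0⟩
  | succ j ih =>
    intro D S hcard h
    have key : ∀ k : ℕ, k ≤ b + 1 → ∃ f : ℕ → V × LTree V b j, ∀ i < k,
        (f i).1 ∉ D ∪ S ∪ (range i).image (fun l => (f l).1) ∧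
        GoodT b j (f i).2 (insert (f i).1 (D ∪ S ∪ (range i).image (fun l => (f l).1))) ∧
        AllDom G b j (f i).2 (insert (f i).1 D) := by
      intro k
      induction k with
      | zero =>
        intro _
        -- need an element of V × LTree; the vertex set is nonempty
        have hV : 0 < Fintype.card V := by omega
        have hL : 0 < Fintype.card (LTree V b j) := by
          rw [card_LTree]; positivity
        obtain ⟨v⟩ := Fintype.card_pos_iff.mp hV
        obtain ⟨l⟩ := Fintype.card_pos_iff.mp hL
        exact ⟨fun _ => (v, l), by intro i hi; omega⟩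
      | succ k ihk =>
        intro hk
        obtain ⟨f, hf⟩ := ihk (by omega)
        set T := (range k).image (fun l => (f l).1) with hT
        have hTcard : T.card ≤ k := by
          rw [hT]; exact card_image_le.trans (by simp)
        have hTb : T.card ≤ b := by omega
        have hTlegal : ∀ x ∈ T, x ∉ D ∧ x ∉ S := by
          intro x hx
          rw [hT, mem_image] at hx
          obtain ⟨l, hl, rfl⟩ := hx
          have := (hf l (mem_range.mp hl)).1
          simp only [mem_union, not_or] at this
          exact ⟨this.1.1, this.1.2⟩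
        have hF := h T hTb hTlegal
        have hstep : ∃ v, v ∉ D ∪ S ∪ T ∧ SForces b Goal j (insert v D) (S ∪ T) := by
          rcases hF with hg | ⟨v, hvD, hvST, hv⟩
          · have hlt : (D ∪ S ∪ T).card < Fintype.card V := by
              have h1 := card_union_le (D ∪ S) T
              have h2 := card_union_le D S
              have h3 : b + 1 ≤ (b + 1) * (j + 1) := by nlinarith
              omega
            obtain ⟨v, hv⟩ : ∃ v, v ∉ D ∪ S ∪ T := by
              by_contra hcon
              push Not at hcon
              have : D ∪ S ∪ T = univ := by ext x; simp only [mem_univ, iff_true]; exact hcon x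
              rw [this, card_univ] at hlt
              omega
            refine ⟨v, hv, ?_⟩
            intro T' _ _
            exact Forces.of_goal (hmono D v hg)
          · refine ⟨v, ?_, ?_⟩
            · simp only [mem_union, not_or] at hvST ⊢
              exact ⟨⟨hvD, hvST.1⟩, hvST.2⟩
            · intro T' hT'b hT'
              apply hv T' hT'b
              intro x hx
              have := hT' x hx
              simp only [mem_insert, not_or] at this
              exact ⟨this.1.1, this.1.2, this.2⟩
        obtain ⟨v, hv, hSF⟩ := hstep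
        have hcard' : (insert v D).card + (S ∪ T).card + (b + 1) * j < Fintype.card V := by
          have h1 := card_insert_le v D
          have h2 := card_union_le S T
          have h3 : (b + 1) * (j + 1) = (b + 1) * j + (b + 1) := by ring
          omega
        obtain ⟨g, hg1, hg2⟩ := ih (insert v D) (S ∪ T) hcard' hSF
        refine ⟨Function.update f k (v, g), ?_⟩
        have himg : ∀ i ≤ k, (range i).image (fun l => (Function.update f k (v, g) l).1) =
            (range i).image (fun l => (f l).1) := by
          intro i hi
          apply image_congr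
          intro l hl
          have : l ≠ k := by
            have := mem_range.mp (Finset.mem_coe.mp hl); omega
          simp [Function.update_of_ne this]
        intro i hi
        rcases Nat.lt_succ_iff_lt_or_eq.mp hi with hi | rfl
        · have hne : i ≠ k := by omega
          rw [himg i hi.le]
          simp only [Function.update_of_ne hne]
          exact hf i hi
        · rw [himg i le_rfl]
          simp only [Function.update_self]
          refine ⟨hv, ?_, hg2⟩
          convert hg1 using 1
          rw [insert_union]
          congr 1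
          rw [← hT, union_assoc]
    obtain ⟨f, hf⟩ := key (b + 1) le_rfl
    refine ⟨fun k : Fin (b + 1) => f k, ?_, ?_⟩
    · intro k
      have hb : before (b := b) (j := j) (fun k : Fin (b + 1) => f k) k =
          (range k).image (fun l => (f l).1) := by
        unfold before
        ext x
        simp only [mem_image, mem_filter, mem_univ, true_and, mem_range]
        constructor
        · rintro ⟨i, hi, rfl⟩
          exact ⟨i, hi, rfl⟩
        · rintro ⟨i, hi, rfl⟩
          exact ⟨⟨i, by omega⟩, hi, rfl⟩
      rw [hb]
      exact ⟨(hf k k.2).1, (hf k k.2).2.1⟩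
    · intro k
      exact (hf k k.2).2.2

theorem first_moves [Fintype V] {b : ℕ} {Goal : Finset V → Prop}
    (hmono : ∀ D v, Goal D → Goal (insert v D)) (j : ℕ) :
    ∀ (i : ℕ) (D : Finset V), D.card + i < Fintype.card V →
      Forces b Goal (i + 1 + j) D ∅ →
      ∃ D', D'.card = D.card + i + 1 ∧ SForces b Goal j D' ∅ := by
  have hex : ∀ D : Finset V, D.card < Fintype.card V → ∃ v, v ∉ D := by
    intro D hD
    by_contra hcon
    push Not at hcon
    have : D = univ := by ext x; simp only [mem_univ, iff_true]; exact hcon x
    rw [this, card_univ] at hD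
    omega
  intro i
  induction i with
  | zero =>
    intro D hD h
    have : 0 + 1 + j = j + 1 := by ring
    rw [this] at h
    rcases h with hg | ⟨v, hvD, _, hv⟩
    · obtain ⟨v, hv⟩ := hex D (by omega)
      refine ⟨insert v D, by rw [card_insert_of_notMem hv], ?_⟩
      intro T _ _
      exact Forces.of_goal (hmono D v hg)
    · refine ⟨insert v D, by rw [card_insert_of_notMem hvD], ?_⟩
      intro T hTb hT
      apply hv T hTb
      intro x hx
      have := hT x hx
      simp only [mem_insert, not_or] at this
      exact ⟨this.1.1, this.1.2, this.2⟩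
  | succ i ih =>
    intro D hD h
    have : i + 1 + 1 + j = (i + 1 + j) + 1 := by ring
    rw [this] at h
    rcases h with hg | ⟨v, hvD, _, hv⟩
    · obtain ⟨v, hv⟩ := hex D (by omega)
      obtain ⟨D', h1, h2⟩ := ih (insert v D) (by rw [card_insert_of_notMem hv]; omega)
        (Forces.of_goal (hmono D v hg))
      exact ⟨D', by rw [h1, card_insert_of_notMem hv]; ring, h2⟩
    · have h0 := hv ∅ (by simp) (by simp)
      rw [union_empty] at h0
      obtain ⟨D', h1, h2⟩ := ih (insert v D) (by rw [card_insert_of_notMem hvD]; omega) h0
      exact ⟨D', by rw [h1, card_insert_of_notMem hvD]; ring, h2⟩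

/-- `R` (a neighbourhood) meets all sets `D ∪ path` -/
def OKs (b : ℕ) : ∀ j, LTree V b j → Finset V → Finset V → Prop
  | 0, _, D, R => ∃ v ∈ D, v ∈ R
  | j + 1, f, D, R => ∀ k : Fin (b + 1), OKs b j (f k).2 (insert (f k).1 D) R

/-- some path avoids `R` -/
def failT (b : ℕ) : ∀ j, LTree V b j → Finset V → Prop
  | 0, _, _ => True
  | j + 1, f, R => ∃ k : Fin (b + 1), (f k).1 ∉ R ∧ failT b j (f k).2 R

lemma not_OKs_iff (b : ℕ) : ∀ (j : ℕ) (f : LTree V b j) (D R : Finset V),
    ¬ OKs b j f D R ↔ (Disjoint D R ∧ failT b j f R)
  | 0, f, D, R => by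
      simp only [OKs, failT, and_true, Finset.disjoint_left]
      push Not
      rfl
  | j + 1, f, D, R => by
      simp only [OKs, failT]
      push Not
      constructor
      · rintro ⟨k, hk⟩
        rw [not_OKs_iff b j] at hk
        rw [disjoint_insert_left] at hk
        exact ⟨hk.1.2, k, hk.1.1, hk.2⟩
      · rintro ⟨h1, k, h2, h3⟩
        refine ⟨k, ?_⟩
        rw [not_OKs_iff b j, disjoint_insert_left]
        exact ⟨⟨h2, h1⟩, h3⟩

lemma OKs_of_AllDom {G : SimpleGraph V} (b : ℕ) :
    ∀ (j : ℕ) (f : LTree V b j) (D W : Finset V), D ⊆ W → labels b j f ⊆ W →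
      AllDom G b j f D → ∀ x, x ∉ W → ∀ R : Finset V, (∀ y ∈ W, G.Adj x y → y ∈ R) →
        OKs b j f D R
  | 0, f, D, W, hDW, _, h, x, hx, R, hR => by
      obtain ⟨v, hv, hadj⟩ := h x (fun hxD => hx (hDW hxD))
      exact ⟨v, hv, hR v (hDW hv) hadj⟩
  | j + 1, f, D, W, hDW, hLW, h, x, hx, R, hR => by
      intro k
      have hk : insert (f k).1 (labels b j (f k).2) ⊆ W := by
        refine Finset.Subset.trans ?_ hLW
        have hl : labels b (j + 1) f =
          univ.biUnion (fun k : Fin (b + 1) => insert (f k).1 (labels b j (f k).2)) := rfl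
        rw [hl]
        exact subset_biUnion_of_mem (fun k : Fin (b + 1) => insert (f k).1 (labels b j (f k).2))
          (mem_univ k)
      rw [insert_subset_iff] at hk
      exact OKs_of_AllDom b j (f k).2 (insert (f k).1 D) W
        (insert_subset_iff.mpr ⟨hk.1, hDW⟩) hk.2 (h k) x hx R hR

end Pool.Agent.Work.MP_dfc2f8_pr
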