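import Pool.Agent.Work.MP_dfc2f8_pr.Prob
import Pool.Agent.Work.MP_dfc2f8_pr.Tree

/-!
# Probabilities for a random subset of a fixed finite set
-/

namespace Pool.Agent.Work.MP_dfc2f8_pr

open Finset MeasureTheory ProbabilityTheory SimpleGraph

variable {V : Type*} [DecidableEq V]

lemma bern_base (p : ℝ) (W Y E : Finset V) (hY : Y ⊆ W) (hE : E ⊆ W) (hYE : Disjoint Y E)
    (Q : Finset V → Prop) [DecidablePred Q] (hQ : ∀ R, Q R ↔ (Disjoint Y R ∧ E ⊆ R)) :
    bern p W Q = (1 - p) ^ Y.card * p ^ E.card := by
  have h1 : ∏ w ∈ W, ((if w ∈ Y then 0 else p) + (if w ∈ E then 0 else (1 - p))) =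
      (1 - p) ^ Y.card * p ^ E.card := by
    have hval : ∀ w ∈ W, ((if w ∈ Y then 0 else p) + (if w ∈ E then 0 else (1 - p))) =
        (if w ∈ Y then (1 - p) else 1) * (if w ∈ E then p else 1) := by
      intro w _
      by_cases hwY : w ∈ Y
      · have hwE : w ∉ E := Finset.disjoint_left.mp hYE hwY
        simp [hwY, hwE]
      · by_cases hwE : w ∈ E
        · simp [hwY, hwE]
        · simp [hwY, hwE]
    rw [prod_congr rfl hval, prod_mul_distrib, ← prod_filter, ← prod_filter, prod_const, prod_const]
    congr 2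
    · congr 1
      ext w; simp only [mem_filter]; exact ⟨fun h => h.2, fun h => ⟨hY h, h⟩⟩
    · congr 1
      ext w; simp only [mem_filter]; exact ⟨fun h => h.2, fun h => ⟨hE h, h⟩⟩
  rw [← h1, prod_add]
  unfold bern
  rw [sum_filter]
  apply sum_congr rfl
  intro R hR
  rw [mem_powerset] at hR
  by_cases hq : Q R
  · rw [if_pos hq]
    rw [hQ] at hq
    congr 1
    · rw [← prod_const]
      apply prod_congr rfl
      intro w hw
      rw [if_neg]
      exact Finset.disjoint_right.mp hq.1 hw
    · rw [← prod_const]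
      apply prod_congr rfl
      intro w hw
      rw [mem_sdiff] at hw
      rw [if_neg]
      exact fun h => hw.2 (hq.2 h)
  · rw [if_neg hq]
    rw [hQ, not_and_or] at hq
    rcases hq with hq | hq
    · rw [Finset.not_disjoint_iff] at hq
      obtain ⟨w, hwY, hwR⟩ := hq
      rw [prod_eq_zero hwR (by simp [hwY])]
      ring
    · rw [Finset.not_subset] at hq
      obtain ⟨w, hwE, hwR⟩ := hq
      rw [prod_eq_zero (s := W \ R) (i := w) (mem_sdiff.mpr ⟨hE hwE, hwR⟩) (by simp [hwE])]
      ring

lemma bern_nonneg {p : ℝ} (hp0 : 0 ≤ p) (hp1 : p ≤ 1) (W : Finset V) (Q : Finset V → Prop)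
    [DecidablePred Q] : 0 ≤ bern p W Q := by
  unfold bern
  apply sum_nonneg
  intro R _
  have : 0 ≤ 1 - p := by linarith
  positivity

lemma bern_mono {p : ℝ} (hp0 : 0 ≤ p) (hp1 : p ≤ 1) (W : Finset V) (Q Q' : Finset V → Prop)
    [DecidablePred Q] [DecidablePred Q'] (h : ∀ R, Q R → Q' R) : bern p W Q ≤ bern p W Q' := by
  unfold bern
  apply sum_le_sum_of_subset_of_nonneg
  · intro R hR
    rw [mem_filter] at hR ⊢
    exact ⟨hR.1, h R hR.2⟩
  · intro R _ _
    have : 0 ≤ 1 - p := by linarith
    positivity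

lemma bern_true (p : ℝ) (W : Finset V) (Q : Finset V → Prop) [DecidablePred Q]
    (hQ : ∀ R, Q R) : bern p W Q = 1 := by
  rw [bern_base p W ∅ ∅ (empty_subset _) (empty_subset _) (by simp) Q
    (fun R => by simp [hQ R])]
  simp

lemma bern_add_not (p : ℝ) (W : Finset V) (Q Q' : Finset V → Prop) [DecidablePred Q]
    [DecidablePred Q'] (h : ∀ R, Q' R ↔ ¬ Q R) : bern p W Q + bern p W Q' = 1 := by
  rw [← bern_true p W (fun _ => True) (fun _ => trivial)]
  unfold bern
  have h1 : W.powerset.filter Q' = W.powerset.filter (fun R => ¬ Q R) := by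
    apply filter_congr
    intro R _
    exact h R
  rw [h1, sum_filter_add_sum_filter_not, Finset.filter_true_of_mem (fun _ _ => trivial)]

open Classical in
/-- probability that a random set meets both `D₁` and `D₂` -/
lemma bern_two (p : ℝ) (W D₁ D₂ : Finset V) (h₁ : D₁ ⊆ W) (h₂ : D₂ ⊆ W)
    (Q : Finset V → Prop) (hQ : ∀ R, Q R ↔ (¬ Disjoint D₁ R ∧ ¬ Disjoint D₂ R)) :
    bern p W Q = 1 - (1 - p) ^ D₁.card - (1 - p) ^ D₂.card + (1 - p) ^ (D₁ ∪ D₂).card := by
  have e1 : bern p W (fun R => Disjoint D₁ R) = (1 - p) ^ D₁.card := by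
    rw [bern_base p W D₁ ∅ h₁ (empty_subset _) (by simp) _ (fun R => by simp)]; simp
  have e2 : bern p W (fun R => Disjoint D₂ R) = (1 - p) ^ D₂.card := by
    rw [bern_base p W D₂ ∅ h₂ (empty_subset _) (by simp) _ (fun R => by simp)]; simp
  have e3 : bern p W (fun R => Disjoint D₁ R ∧ Disjoint D₂ R) = (1 - p) ^ (D₁ ∪ D₂).card := by
    rw [bern_base p W (D₁ ∪ D₂) ∅ (union_subset h₁ h₂) (empty_subset _) (by simp) _
      (fun R => by simp [disjoint_union_left])]
    simp
  have e4 : bern p W (fun _ => True) = 1 := bern_true p W _ (fun _ => trivial)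
  have : bern p W Q + bern p W (fun R => Disjoint D₁ R) + bern p W (fun R => Disjoint D₂ R) =
      bern p W (fun _ => True) + bern p W (fun R => Disjoint D₁ R ∧ Disjoint D₂ R) := by
    unfold bern
    simp only [sum_filter]
    rw [← sum_add_distrib, ← sum_add_distrib, ← sum_add_distrib]
    apply sum_congr rfl
    intro R _
    have hq := hQ R
    by_cases a : Disjoint D₁ R <;> by_cases c : Disjoint D₂ R <;> simp [hq, a, c]
  rw [e1, e2, e3, e4] at this
  linarith

open Classical in
lemma bern_one (p : ℝ) (W D : Finset V) (h : D ⊆ W)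
    (Q : Finset V → Prop) (hQ : ∀ R, Q R ↔ ¬ Disjoint D R) :
    bern p W Q = 1 - (1 - p) ^ D.card := by
  rw [bern_two p W D D h h Q (fun R => by rw [hQ R]; tauto)]
  simp

lemma card_before {b j : ℕ} (f : LTree V b (j + 1)) (k : Fin (b + 1)) :
    (before f k).card ≤ k := by
  unfold before
  refine card_image_le.trans ?_
  have : univ.filter (fun i : Fin (b + 1) => i < k) = Finset.Iio k := by
    ext i; simp
  rw [this, Fin.card_Iio]

open Classical in
/-- lower bound for the probability that some path is avoided -/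
theorem bern_fail {p : ℝ} (hp0 : 0 ≤ p) (hp1 : p ≤ 1) (b : ℕ) (W : Finset V) :
    ∀ (j : ℕ) (f : LTree V b j) (X Y E : Finset V), GoodT b j f X → Y ⊆ X → E ⊆ X →
      Disjoint Y E → Y ⊆ W → E ⊆ W → labels b j f ⊆ W →
      (1 - p) ^ Y.card * p ^ E.card * (1 - p ^ (b + 1)) ^ j ≤
        bern p W (fun R => Disjoint Y R ∧ E ⊆ R ∧ failT b j f R) := by
  intro j
  induction j with
  | zero =>
    intro f X Y E _ _ _ hYE hYW hEW _
    rw [bern_base p W Y E hYW hEW hYE _ (fun R => by simp [failT])]
    simp
  | succ j ih =>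
    intro f X Y E hgood hYX hEX hYE hYW hEW hlab
    have hq0 : 0 ≤ 1 - p := by linarith
    have hlab' : ∀ k : Fin (b + 1), (f k).1 ∈ W ∧ labels b j (f k).2 ⊆ W := by
      intro k
      have hl : labels b (j + 1) f =
        univ.biUnion (fun k : Fin (b + 1) => insert (f k).1 (labels b j (f k).2)) := rfl
      rw [hl] at hlab
      have := (subset_biUnion_of_mem (fun k : Fin (b + 1) => insert (f k).1 (labels b j (f k).2))
        (mem_univ k)).trans hlab
      rwa [insert_subset_iff] at this
    have hbW : ∀ k : Fin (b + 1), before f k ⊆ W := by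
      intro k x hx
      unfold before at hx
      rw [mem_image] at hx
      obtain ⟨i, _, rfl⟩ := hx
      exact (hlab' i).1
    have hnX : ∀ k : Fin (b + 1), (f k).1 ∉ X := fun k h =>
      (hgood k).1 (mem_union_left _ h)
    have hnb : ∀ k : Fin (b + 1), (f k).1 ∉ before f k := fun k h =>
      (hgood k).1 (mem_union_right _ h)
    have hbX : ∀ k : Fin (b + 1), ∀ x ∈ before f k, x ∉ X := by
      intro k x hx
      unfold before at hx
      rw [mem_image] at hx
      obtain ⟨i, _, rfl⟩ := hx
      exact hnX i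
    have hk : ∀ k : Fin (b + 1),
        (1 - p) ^ (Y.card + 1) * p ^ (E.card + k) * (1 - p ^ (b + 1)) ^ j ≤
        bern p W (fun R => Disjoint (insert (f k).1 Y) R ∧ E ∪ before f k ⊆ R ∧
          failT b j (f k).2 R) := by
      intro k
      have h1 := ih (f k).2 (insert (f k).1 (X ∪ before f k)) (insert (f k).1 Y)
        (E ∪ before f k) (hgood k).2
        (insert_subset_insert _ (hYX.trans subset_union_left))
        ((union_subset_union hEX (Finset.Subset.refl _)).trans (subset_insert _ _))
        (by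
          rw [disjoint_insert_left, mem_union, not_or]
          refine ⟨⟨fun h => hnX k (hEX h), hnb k⟩, ?_⟩
          rw [disjoint_union_right]
          refine ⟨hYE, ?_⟩
          rw [Finset.disjoint_left]
          intro x hx hx'
          exact hbX k x hx' (hYX hx))
        (insert_subset (hlab' k).1 hYW) (union_subset hEW (hbW k)) (hlab' k).2
      refine le_trans ?_ h1
      have hc : (insert (f k).1 Y).card = Y.card + 1 :=
        card_insert_of_notMem (fun h => hnX k (hYX h))
      have hc2 : (E ∪ before f k).card ≤ E.card + k := by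
        refine (card_union_le _ _).trans ?_
        have := card_before f k
        omega
      rw [hc]
      have hpp : p ^ (E.card + (k : ℕ)) ≤ p ^ (E ∪ before f k).card :=
        pow_le_pow_of_le_one hp0 hp1 hc2
      have h1p : 0 ≤ (1 - p ^ (b + 1)) ^ j := by
        apply pow_nonneg
        have := pow_le_one₀ (n := b + 1) hp0 hp1
        linarith
      gcongr
    -- the events for different `k` are disjoint
    have hsum : ∑ k : Fin (b + 1), bern p W (fun R => Disjoint (insert (f k).1 Y) R ∧
          E ∪ before f k ⊆ R ∧ failT b j (f k).2 R) ≤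
        bern p W (fun R => Disjoint Y R ∧ E ⊆ R ∧ failT b (j + 1) f R) := by
      unfold bern
      rw [← sum_biUnion]
      · apply sum_le_sum_of_subset_of_nonneg
        · intro R hR
          rw [mem_biUnion] at hR
          obtain ⟨k, _, hR⟩ := hR
          rw [mem_filter] at hR ⊢
          obtain ⟨hRW, h1, h2, h3⟩ := hR
          rw [disjoint_insert_left] at h1
          exact ⟨hRW, h1.2, subset_union_left.trans h2, k, h1.1, h3⟩
        · intro R _ _
          positivity
      · intro i _ k _ hik
        rw [Function.onFun, Finset.disjoint_left]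
        intro R hR hR'
        rw [mem_filter] at hR hR'
        rcases lt_or_gt_of_ne hik with h | h
        · have : (f i).1 ∈ before f k := by
            unfold before
            rw [mem_image]
            exact ⟨i, by simp [h], rfl⟩
          have h2 : (f i).1 ∈ R := hR'.2.2.1 (mem_union_right _ this)
          exact (Finset.disjoint_left.mp hR.2.1) (mem_insert_self _ _) h2
        · have : (f k).1 ∈ before f i := by
            unfold before
            rw [mem_image]
            exact ⟨k, by simp [h], rfl⟩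
          have h2 : (f k).1 ∈ R := hR.2.2.1 (mem_union_right _ this)
          exact (Finset.disjoint_left.mp hR'.2.1) (mem_insert_self _ _) h2
    refine le_trans ?_ hsum
    refine le_trans (le_of_eq ?_) (sum_le_sum (fun k _ => hk k))
    have hgeom : (1 - p) * ∑ k : Fin (b + 1), p ^ (k : ℕ) = 1 - p ^ (b + 1) := by
      rw [Fin.sum_univ_eq_sum_range (fun i => p ^ i) (b + 1)]
      exact mul_neg_geom_sum p (b + 1)
    have : ∑ k : Fin (b + 1), (1 - p) ^ (Y.card + 1) * p ^ (E.card + (k : ℕ)) *
        (1 - p ^ (b + 1)) ^ j = (1 - p) ^ Y.card * p ^ E.card *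
          ((1 - p) * ∑ k : Fin (b + 1), p ^ (k : ℕ)) * (1 - p ^ (b + 1)) ^ j := by
      rw [mul_sum, mul_sum, sum_mul]
      apply sum_congr rfl
      intro k _
      ring
    rw [this, hgeom]
    ring

open Classical in
lemma bern_OKs_le {p : ℝ} (hp0 : 0 ≤ p) (hp1 : p ≤ 1) (b j : ℕ) (f : LTree V b j)
    (D W : Finset V) (hgood : GoodT b j f D) (hDW : D ⊆ W) (hlab : labels b j f ⊆ W) :
    bern p W (OKs b j f D) ≤ 1 - (1 - p) ^ D.card * (1 - p ^ (b + 1)) ^ j := by
  have h1 := bern_fail hp0 hp1 b W j f D D ∅ hgood (Finset.Subset.refl _) (empty_subset _)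
    (by simp) hDW (empty_subset _) hlab
  have h2 := bern_add_not p W (OKs b j f D) (fun R => Disjoint D R ∧ ∅ ⊆ R ∧ failT b j f R)
    (fun R => by rw [not_OKs_iff]; simp)
  simp only [card_empty, pow_zero, mul_one] at h1
  linarith

end Pool.Agent.Work.MP_dfc2f8_pr
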