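import Pool.Agent.Work.MP_dfc2f8_pr.SizeProb

/-!
# The size game: combination of both phases
-/

namespace Pool.Agent.Work.MP_dfc2f8_pr

open Finset MeasureTheory ProbabilityTheory SimpleGraph

universe u
variable {V : Type u} [DecidableEq V] [Fintype V]

theorem size_bound (p : unitInterval) (b r j : ℕ) (α β l₁ l₂ δ : ℝ)
    (hδ0 : 0 ≤ δ)
    (hδ : ∀ T : Finset V, T.card = r → (binomialRandom V p).real
      {G | ¬ GoodG α β (mu (1 - (p : ℝ)) (Fintype.card V) T.card j) j G T} ≤ δ)
    (hμ : 0 < mu (1 - (p : ℝ)) (Fintype.card V) r j)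
    (hl₁ : 0 < l₁) (hl₂ : 0 < l₂)
    (hα : l₁ * (b * r : ℕ) + α / l₁ ≤ 1 / 4)
    (hβ : l₂ * Fintype.card V + β / l₂ < ((1 + (b : ℝ))⁻¹) ^ j / 4)
    (hc : (b + 1) * r < Fintype.card V)
    (hρ : ((Fintype.card V : ℝ) / ((Fintype.card V : ℝ) - ((b + 1) * r : ℕ))) ^ r ≤ 2) :
    (binomialRandom V p).real {G | ¬ (sMB G b ≤ ((r + j : ℕ) : ℕ∞))} ≤ 2 * δ := by
  classical
  let Bad : SimpleGraph V → Finset V → Prop := fun G D =>
    D.card = r ∧ ¬ GoodG α β (mu (1 - (p : ℝ)) (Fintype.card V) r j) j G D
  have hmean := gav_mean (V := V) (gw p) Bad δ (by omega) (by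
    intro D
    by_cases hD : D.card = r
    · have h1 := hδ D hD
      rw [hD] at h1
      have h2 := prob_eq_sum p
        {G : SimpleGraph V | ¬ GoodG α β (mu (1 - (p : ℝ)) (Fintype.card V) r j) j G D}
      simp only [Set.mem_ofPred_eq] at h2
      refine le_trans (le_of_eq ?_) h1
      rw [h2]
      apply sum_congr rfl
      intro G _
      congr 1
      simp only [Bad, hD, true_and]
    · refine le_trans (le_of_eq ?_) hδ0
      apply sum_eq_zero
      intro G _
      simp [Bad, hD]) r ∅
  have hM := markov p (fun G => gav (Bad G) r ∅) (fun G => gav_nonneg _ _ _) (1 / 2) (by norm_num)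
    {G | ¬ (sMB G b ≤ ((r + j : ℕ) : ℕ∞))} (by
      intro G hG
      by_contra hlt
      push Not at hlt
      apply hG
      refine sMB_le_of G b (r + j) (r + Fintype.card V) ?_
      refine phase_one (Bad := Bad G) (m := Fintype.card V) ((b + 1) * r) hc r ∅ ∅
        (by simp) (by simp) ?_ ?_
      · have h0 := gav_nonneg (Bad G) r ∅
        have h1 : gav (Bad G) r ∅ < 1 / 2 := hlt
        have hρ0 : 0 ≤ ((Fintype.card V : ℝ) /
            ((Fintype.card V : ℝ) - ((b + 1) * r : ℕ))) ^ r := by
          apply pow_nonneg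
          apply div_nonneg (by positivity)
          have : (((b + 1) * r : ℕ) : ℝ) ≤ Fintype.card V := by exact_mod_cast hc.le
          linarith
        nlinarith
      · intro D' S' hd _ hcard hS' hnb
        have hD' : D'.card = r := by simpa using hcard
        have hgood : GoodG α β (mu (1 - (p : ℝ)) (Fintype.card V) r j) j G D' := by
          by_contra hng
          exact hnb ⟨hD', hng⟩
        have := size_force (b := b) hμ hl₁ hl₂ hd (σ := b * r) (by simpa using hS') hgood
          (by exact_mod_cast hα) hβ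
        rw [hD'] at this
        exact this)
  refine hM.trans ?_
  rw [div_le_iff₀ (by norm_num)]
  linarith

end Pool.Agent.Work.MP_dfc2f8_pr
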