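import Mathlib

/-!
# The (1:b) Maker-Breaker domination game: definitions

The board is the vertex set of a graph. A position is a pair `(D, S)`: the set `D` of vertices
claimed by Dominator and the set `S` of vertices claimed by Staller. Dominator moves first; one
round is a move of Dominator (one unclaimed vertex) followed by a move of Staller (at most `b`
unclaimed vertices).
-/

namespace Pool.Agent.Work.MP_dfc2f8_pr

variable {V : Type*} [DecidableEq V]

/-- `D` is a dominating set of `G`: every vertex outside `D` has a neighbour in `D`. -/
def IsDominating (G : SimpleGraph V) (D : Finset V) : Prop :=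
  ∀ u, u ∉ D → ∃ v ∈ D, G.Adj u v

/-- `Forces b Goal t D S`: in the `(1:b)` game, from the position where Dominator has claimed the
vertices of `D`, Staller has claimed the vertices of `S` and Dominator is to move, Dominator has a
strategy guaranteeing that at some moment, after at most `t` further moves of hers, the set of
vertices she has claimed satisfies `Goal`.

It is defined by recursion on `t`, following the rounds of the game: either the goal is already
reached, or (if `t > 0`) Dominator can claim an unclaimed vertex `v` such that, for every set `T` of
at most `b` vertices unclaimed at that moment which Staller may claim in reply, Dominator wins from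
the new position with at most `t - 1` further moves. -/
def Forces (b : ℕ) (Goal : Finset V → Prop) : ℕ → Finset V → Finset V → Prop
  | 0, D, _ => Goal D
  | t + 1, D, S => Goal D ∨ ∃ v, v ∉ D ∧ v ∉ S ∧
      ∀ T : Finset V, T.card ≤ b → (∀ x ∈ T, x ≠ v ∧ x ∉ D ∧ x ∉ S) →
        Forces b Goal t (insert v D) (S ∪ T)

/-- `γ_MB(G,b)`: the least `t` such that Dominator (moving first on the empty board) has a strategy
guaranteeing that within at most `t` rounds the set of vertices she has claimed contains a
dominating set (`⊤` if there is no such `t`). -/
noncomputable def gammaMB (G : SimpleGraph V) (b : ℕ) : ℕ∞ :=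
  sInf {x : ℕ∞ | ∃ t : ℕ, x = t ∧ Forces b (fun D => ∃ D' ⊆ D, IsDominating G D') t ∅ ∅}

/-- `s_MB(G,b)`: the least `s` such that Dominator (moving first on the empty board) has a strategy
guaranteeing that she claims all vertices of some dominating set of size at most `s`, with no bound
on the number of rounds (`⊤` if there is no such `s`). -/
noncomputable def sMB (G : SimpleGraph V) (b : ℕ) : ℕ∞ :=
  sInf {x : ℕ∞ | ∃ s : ℕ, x = s ∧
    ∃ t : ℕ, Forces b (fun D => ∃ D' ⊆ D, D'.card ≤ s ∧ IsDominating G D') t ∅ ∅}

end Pool.Agent.Work.MP_dfc2f8_pr
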