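import Pool.Agent.Work.MP_dfc2f8_pr.Combine
import Pool.Agent.Work.MP_dfc2f8_pr.Asym

/-!
# The domination game on the random graph: final estimates
-/

namespace Pool.Agent.Work.MP_dfc2f8_pr

open Finset MeasureTheory ProbabilityTheory SimpleGraph Filter Topology

universe u

lemma DD_nonneg {η c₀ ℓ L : ℝ} (hη : 0 < η) (hc₀ : 0 < c₀) (hL : 0 ≤ L) :
    0 ≤ DD η c₀ ℓ L := by
  unfold DD
  simp only
  set e := Real.exp (4 * c₀ * η * (L ^ 3 * Real.exp (-L))) with he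
  set B := Real.exp (4 * c₀ * Real.exp ℓ * (L ^ 2 * Real.exp (-(ℓ * η / 2 * L)))) with hB
  set X := 2 * η ^ 2 * (L ^ 2 * Real.exp (-L)) with hX
  set C := Real.exp (-(2 * L)) with hC
  have he1 : 1 ≤ e := by rw [he]; apply Real.one_le_exp; positivity
  have hB1 : 1 ≤ B := by rw [hB]; apply Real.one_le_exp; positivity
  have hX0 : 0 ≤ X := by positivity
  have hC0 : 0 ≤ C := by positivity
  have h1 : 0 ≤ η * L * (X * B + C) := by positivity
  have h2 : 1 ≤ e * (B + η * L * (X * B + C)) := by nlinarith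
  have h3 : 0 ≤ e * ((η * L) ^ 2 * (X * B + C)) / Real.exp (-(L / 2)) := by positivity
  have h4 : 0 ≤ e * ((η * L) ^ 3 * (X ^ 2 * B + C)) / Real.exp (-(3 * L / 2)) := by positivity
  linarith

lemma aux_sq {b x : ℝ} (hb : 0 ≤ b) (hx : 1 ≤ x) : 2 * x ≤ 2 * (b + 1) * x ^ 2 := by
  have h1 : x ≤ x ^ 2 := by nlinarith
  nlinarith [mul_nonneg hb (sq_nonneg x)]

lemma aux_lt {b r : ℝ} (hb : 0 ≤ b) (hr : 0 ≤ r) : (b + 1) * r < 2 * (b + 1) * (r + 1) ^ 2 := by
  have : r < 2 * (r + 1) ^ 2 := by nlinarith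
  calc (b + 1) * r < (b + 1) * (2 * (r + 1) ^ 2) := by gcongr
    _ = _ := by ring

lemma aux_rr {b r : ℝ} (hb : 0 ≤ b) (hr : 0 ≤ r) :
    2 * ((b + 1) * r * r) ≤ 2 * (b + 1) * (r + 1) ^ 2 := by
  have : r * r ≤ (r + 1) ^ 2 := by nlinarith
  calc 2 * ((b + 1) * r * r) = 2 * (b + 1) * (r * r) := by ring
    _ ≤ 2 * (b + 1) * (r + 1) ^ 2 := by gcongr

lemma aux_two {a w : ℝ} (ha : 0 ≤ a) (hw : 1 / 2 ≤ w) (h : a * w = 1) : a ≤ 2 := by
  nlinarith

variable {V : Type u} [DecidableEq V] [Fintype V]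

theorem size_part (p : unitInterval) (b : ℕ) (ℓ η c₀ M L : ℝ)
    (hq0 : 0 < 1 - (p : ℝ))
    (hℓd : 1 - (p : ℝ) = Real.exp (-ℓ)) (hℓ : 0 < ℓ)
    (hη : 0 < η) (hη1 : η * Real.log (1 + b) ≤ 1 / 8) (hη2 : η ≤ 1 / (4 * ℓ))
    (hc₀ : 0 < c₀) (hM : 0 ≤ M)
    (hn : (Fintype.card V : ℝ) = Real.exp L)
    (f1 : 1 ≤ L)
    (f3 : L / (2 * ℓ) ≤ (L - 2 * Real.log L - Real.log c₀) / ℓ)
    (f4 : (L - 2 * Real.log L - Real.log c₀) / ℓ + 1 ≤ 2 * L / ℓ)
    (f5 : 5 ≤ η * L)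
    (f6 : 2 * η ^ 2 * (L ^ 2 * Real.exp (-L)) ≤ Real.exp (-(L / 2)))
    (f7 : 2 * L ≤ (L / 2) * (η * L / 2 - 1) - 4 * c₀ * L ^ 2)
    (f8 : c₀ * (L ^ 2 * Real.exp (-L)) ≤ 1 / 2)
    (f9 : Real.exp (-(L / 4)) * (b * (2 * L / ℓ)) + Real.exp (-(L / 4)) ≤ 1 / 4)
    (f10 : 2 * Real.exp (-(L / 4)) < Real.exp (-(L / 8)) / 4)
    (f11 : 2 * (b + 1) * (2 * L / ℓ + M + 1) ^ 2 ≤ Real.exp L) :
    (binomialRandom V p).real
      {G | ¬ (sMB G b ≤ ((⌈(L - 2 * Real.log L - Real.log c₀) / ℓ⌉₊ : ℕ) : ℕ∞))} ≤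
      2 * DD η c₀ ℓ L := by
  set x₀ := (L - 2 * Real.log L - Real.log c₀) / ℓ with hx₀
  set s := ⌈x₀⌉₊ with hs
  set j := ⌊η * L⌋₊ with hj
  have hL0 : 0 < L := by linarith
  have hx₀pos : 0 ≤ x₀ := le_trans (by positivity) f3
  have hs1 : x₀ ≤ s := Nat.le_ceil _
  have hs2 : (s : ℝ) < x₀ + 1 := Nat.ceil_lt_add_one hx₀pos
  have hs3 : (s : ℝ) ≤ 2 * L / ℓ := hs2.le.trans f4
  have hj1 : (j : ℝ) ≤ η * L := Nat.floor_le (by positivity)
  have hj2 : η * L < j + 1 := Nat.lt_floor_add_one _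
  have hj5 : 5 ≤ j := by
    have : (4 : ℝ) < j := by linarith
    have : 4 < j := by exact_mod_cast this
    omega
  have hjs : j ≤ s := by
    have h1 : (j : ℝ) ≤ s := by
      refine hj1.trans (le_trans ?_ (f3.trans hs1))
      have : η * L ≤ 1 / (4 * ℓ) * L := by gcongr
      refine this.trans ?_
      rw [div_mul_eq_mul_div, one_mul]
      apply div_le_div_of_nonneg_left hL0.le (by positivity)
      linarith
    exact_mod_cast h1
  set r := s - j with hr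
  have hrj : r + j = s := by omega
  have hrs : r ≤ s := by omega
  have hr2 : (r : ℝ) ≤ 2 * L / ℓ := le_trans (by exact_mod_cast hrs) hs3
  set n := Fintype.card V with hnd
  have hnpos : (0 : ℝ) < n := by rw [hn]; positivity
  -- size comparisons
  have h2Lℓ : 0 ≤ 2 * L / ℓ := by positivity
  have hbig : 2 * ((b : ℝ) + 1) * ((r : ℝ) + 1) ^ 2 ≤ n := by
    rw [hn]
    refine le_trans ?_ f11
    have : (r : ℝ) + 1 ≤ 2 * L / ℓ + M + 1 := by linarith
    gcongr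
  have hb0 : (0 : ℝ) ≤ b := by positivity
  have hr0 : (0 : ℝ) ≤ r := by positivity
  have hrn2 : 2 * (r : ℝ) + 2 ≤ n := by
    have := (aux_sq hb0 (by linarith : (1 : ℝ) ≤ (r : ℝ) + 1)).trans hbig
    linarith
  have hrn : r < n := by
    have : (r : ℝ) < n := by linarith
    exact_mod_cast this
  -- bounds on q^s
  have hqs : (1 - (p : ℝ)) ^ s = Real.exp (-(ℓ * s)) := by
    rw [hℓd, ← Real.exp_nat_mul]; ring_nf
  have hexpx : Real.exp (-(ℓ * x₀)) = c₀ * (L ^ 2 * Real.exp (-L)) := by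
    have : -(ℓ * x₀) = Real.log c₀ + (2 * Real.log L + (-L)) := by
      rw [hx₀]; field_simp; ring
    rw [this, Real.exp_add, Real.exp_add, Real.exp_log hc₀]
    congr 2
    rw [two_mul, Real.exp_add, Real.exp_log hL0]; ring
  have hqs_le : (1 - (p : ℝ)) ^ s ≤ c₀ * (L ^ 2 * Real.exp (-L)) := by
    rw [hqs, ← hexpx]
    exact Real.exp_le_exp.mpr (neg_le_neg (mul_le_mul_of_nonneg_left hs1 hℓ.le))
  have hqs0 : 0 < (1 - (p : ℝ)) ^ s := by positivity
  have hnq : (n : ℝ) * (1 - (p : ℝ)) ^ s ≤ c₀ * L ^ 2 := by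
    have h1 : (n : ℝ) * (1 - (p : ℝ)) ^ s ≤ n * (c₀ * (L ^ 2 * Real.exp (-L))) := by gcongr
    refine h1.trans (le_of_eq ?_)
    rw [hn]
    have : Real.exp L * Real.exp (-L) = 1 := by rw [← Real.exp_add]; simp
    calc Real.exp L * (c₀ * (L ^ 2 * Real.exp (-L))) =
        c₀ * L ^ 2 * (Real.exp L * Real.exp (-L)) := by ring
      _ = _ := by rw [this, mul_one]
  have hqhalf : (1 - (p : ℝ)) ^ s ≤ 1 / 2 := hqs_le.trans f8
  have hμ : 0 < mu (1 - (p : ℝ)) n r j := by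
    unfold mu
    have hjn : j ≤ n - r := by
      have : (j : ℝ) + r ≤ n := by
        have h1 : (j : ℝ) + r = s := by exact_mod_cast (by omega : j + r = s)
        rw [h1]
        have h2 : (s : ℝ) ≤ 2 * L / ℓ + M + 1 := by linarith
        have h3 : (1 : ℝ) ≤ 2 * L / ℓ + M + 1 := by linarith
        have h4 := (aux_sq hb0 h3).trans f11
        rw [← hn] at h4
        linarith
      have : j + r ≤ n := by exact_mod_cast this
      omega
    have h1 : 0 < (n - r).choose j := Nat.choose_pos hjn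
    rw [hrj]
    have h2 : 0 < 1 - (1 - (p : ℝ)) ^ s := by linarith
    positivity
  set k0 := j / 2 with hk0
  have hk0a : 2 ≤ k0 := by omega
  have hk0b : 2 * k0 ≤ j := by omega
  have hk0c : η * L / 2 - 1 ≤ (k0 : ℝ) := by
    have : (j : ℝ) ≤ 2 * k0 + 1 := by exact_mod_cast (by omega : j ≤ 2 * k0 + 1)
    linarith
  -- bound on the bad probability
  have hbad : ∀ T : Finset V, T.card = r → (binomialRandom V p).real
      {G | ¬ GoodG (Real.exp (-(L / 2))) (Real.exp (-(3 * L / 2)))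
        (mu (1 - (p : ℝ)) (Fintype.card V) T.card j) j G T} ≤ DD η c₀ ℓ L := by
    intro T hT
    have h := prob_bad p T j k0 (2 * η ^ 2 * (L ^ 2 * Real.exp (-L)))
      (Real.exp (4 * c₀ * Real.exp ℓ * (L ^ 2 * Real.exp (-(ℓ * η / 2 * L)))))
      (Real.exp (-(2 * L))) (Real.exp (4 * c₀ * η * (L ^ 3 * Real.exp (-L))))
      (Real.exp (-(L / 2))) (Real.exp (-(3 * L / 2)))
      (by rw [hT]; exact hrn) (by rw [hT, hrj]; exact hqhalf) (by rw [hT]; exact hμ)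
      hk0a hk0b ?_ ?_ ?_ ?_ ?_ (Real.exp_pos _) (Real.exp_pos _)
    · refine h.trans ?_
      unfold DD
      simp only
      have hj0 : (0 : ℝ) ≤ j := by positivity
      gcongr
    · -- X ≤ 1
      refine f6.trans ?_
      rw [Real.exp_le_one_iff]; linarith
    · -- y ≤ X
      rw [hT, ← hnd]
      have hnr : (n : ℝ) / 2 ≤ ((n - r : ℕ) : ℝ) := by
        rw [Nat.cast_sub hrn.le]; linarith
      have h1 : (j : ℝ) ^ 2 / ((n - r : ℕ) : ℝ) ≤ (η * L) ^ 2 / (n / 2) := by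
        gcongr
      refine h1.trans (le_of_eq ?_)
      rw [hn, Real.exp_neg]
      field_simp
    · -- B
      apply Real.exp_le_exp.mpr
      rw [hT, hrj, ← hnd]
      have hqk : (1 - (p : ℝ)) ^ k0 ≤ Real.exp ℓ * Real.exp (-(ℓ * η / 2 * L)) := by
        rw [hℓd, ← Real.exp_nat_mul, ← Real.exp_add]
        apply Real.exp_le_exp.mpr
        have := mul_le_mul_of_nonneg_left hk0c hℓ.le
        linarith
      have hqk0 : 0 ≤ (1 - (p : ℝ)) ^ k0 := by positivity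
      calc 4 * (n : ℝ) * (1 - (p : ℝ)) ^ s * (1 - (p : ℝ)) ^ k0
          = 4 * ((n : ℝ) * (1 - (p : ℝ)) ^ s) * (1 - (p : ℝ)) ^ k0 := by ring
        _ ≤ 4 * (c₀ * L ^ 2) * (Real.exp ℓ * Real.exp (-(ℓ * η / 2 * L))) := by gcongr
        _ = _ := by ring
    · -- C
      rw [hT, hrj, ← hnd]
      have hX0 : 0 ≤ 2 * η ^ 2 * (L ^ 2 * Real.exp (-L)) := by positivity
      calc (2 * η ^ 2 * (L ^ 2 * Real.exp (-L))) ^ k0 * Real.exp (4 * n * (1 - (p : ℝ)) ^ s)
          ≤ (Real.exp (-(L / 2))) ^ k0 * Real.exp (4 * (c₀ * L ^ 2)) := by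
            apply mul_le_mul (pow_le_pow_left₀ hX0 f6 k0) _ (Real.exp_pos _).le (by positivity)
            apply Real.exp_le_exp.mpr
            calc 4 * (n : ℝ) * (1 - (p : ℝ)) ^ s = 4 * ((n : ℝ) * (1 - (p : ℝ)) ^ s) := by ring
              _ ≤ _ := by gcongr
        _ = Real.exp (k0 * (-(L / 2)) + 4 * (c₀ * L ^ 2)) := by
            rw [← Real.exp_nat_mul, ← Real.exp_add]
        _ ≤ Real.exp (-(2 * L)) := by
            apply Real.exp_le_exp.mpr
            have := mul_le_mul_of_nonneg_left hk0c (by positivity : 0 ≤ L / 2)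
            linarith
    · -- e
      apply Real.exp_le_exp.mpr
      rw [hT, hrj]
      calc 4 * (1 - (p : ℝ)) ^ s * j ≤ 4 * (c₀ * (L ^ 2 * Real.exp (-L))) * (η * L) := by gcongr
        _ = _ := by ring
  have key := size_bound (V := V) p b r j (Real.exp (-(L / 2))) (Real.exp (-(3 * L / 2)))
    (Real.exp (-(L / 4))) (Real.exp (-(5 * L / 4))) (DD η c₀ ℓ L)
    (DD_nonneg hη hc₀ hL0.le) hbad hμ (Real.exp_pos _) (Real.exp_pos _) ?_ ?_ ?_ ?_
  · rw [hrj] at key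
    exact key
  · -- hα
    have h1 : Real.exp (-(L / 2)) / Real.exp (-(L / 4)) = Real.exp (-(L / 4)) := by
      rw [← Real.exp_sub]; ring_nf
    rw [h1]
    refine le_trans ?_ f9
    push_cast
    gcongr
  · -- hβ
    have h1 : Real.exp (-(3 * L / 2)) / Real.exp (-(5 * L / 4)) = Real.exp (-(L / 4)) := by
      rw [← Real.exp_sub]; ring_nf
    have h2 : Real.exp (-(5 * L / 4)) * (Fintype.card V : ℝ) = Real.exp (-(L / 4)) := by
      rw [← hnd, hn, ← Real.exp_add]; ring_nf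
    rw [h1, h2]
    have h3 : Real.exp (-(L / 8)) ≤ ((1 + (b : ℝ))⁻¹) ^ j := by
      have hb1 : (0 : ℝ) < 1 + b := by positivity
      have hlog : 0 ≤ Real.log (1 + b) := Real.log_nonneg (by
        have : (0 : ℝ) ≤ b := by positivity
        linarith)
      have h4 : ((1 + (b : ℝ))⁻¹) ^ j = Real.exp (-(j * Real.log (1 + b))) := by
        rw [← Real.exp_log hb1, ← Real.exp_neg, ← Real.exp_nat_mul]
        simp
      rw [h4]
      apply Real.exp_le_exp.mpr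
      have h5 : (j : ℝ) * Real.log (1 + b) ≤ η * L * Real.log (1 + b) := by gcongr
      have h6 := mul_le_mul_of_nonneg_right hη1 hL0.le
      linarith
    linarith
  · -- hc
    have : (((b + 1) * r : ℕ) : ℝ) < n := by
      push_cast
      exact lt_of_lt_of_le (aux_lt hb0 hr0) hbig
    exact_mod_cast this
  · -- hρ
    set c : ℝ := (((b + 1) * r : ℕ) : ℝ) with hc
    have hcb : c = (b + 1) * r := by rw [hc]; push_cast; ring
    have hcr : 2 * (c * r) ≤ n := by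
      rw [hcb]
      exact (aux_rr hb0 hr0).trans hbig
    have hc0 : 0 ≤ c := by positivity
    have hcn : c < n := by
      rw [hcb]
      exact lt_of_lt_of_le (aux_lt hb0 hr0) hbig
    have hnc : 0 < (n : ℝ) - c := by linarith
    have hbern : 1 - r * (c / n) ≤ (1 - c / n) ^ r := by
      have h1 : (-2 : ℝ) ≤ -(c / n) := by
        have : c / n ≤ 1 := by rw [div_le_one hnpos]; linarith
        linarith
      have := one_add_mul_le_pow h1 r
      calc 1 - r * (c / n) = 1 + r * (-(c / n)) := by ring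
        _ ≤ (1 + -(c / n)) ^ r := this
        _ = _ := by ring
    have hhalf : 1 / 2 ≤ 1 - r * (c / n) := by
      have : r * (c / n) ≤ 1 / 2 := by
        rw [← mul_div_assoc, div_le_iff₀ hnpos]
        linarith
      linarith
    have h1 : ((n : ℝ) / ((n : ℝ) - c)) ^ r * (1 - c / n) ^ r = 1 := by
      rw [← mul_pow]
      have : (n : ℝ) / ((n : ℝ) - c) * (1 - c / n) = 1 := by
        field_simp
      rw [this, one_pow]
    have h2 : 0 ≤ ((n : ℝ) / ((n : ℝ) - c)) ^ r := by positivity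
    rw [← hnd]
    exact aux_two h2 (hhalf.trans hbern) h1

theorem time_part (p : unitInterval) (b J K : ℕ) (ℓ c₀ M L : ℝ)
    (hq0 : 0 < 1 - (p : ℝ)) (hp0 : 0 < (p : ℝ)) (hb : 1 ≤ b)
    (hℓd : 1 - (p : ℝ) = Real.exp (-ℓ)) (hℓ : 0 < ℓ)
    (hc₀ : 0 < c₀) (hM : (K : ℝ) + Nj b J + (b + 1) * J + J ≤ M)
    (hJ : 2 / ℓ + 1 ≤ (1 - (p : ℝ)) ^ (K + 1) * c₀ *
      ((1 - (p : ℝ) ^ (b + 1)) / (1 - (p : ℝ))) ^ J / 2)
    (hn : (Fintype.card V : ℝ) = Real.exp L)
    (f1 : 1 ≤ L) (f2 : M + 1 ≤ L)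
    (f3 : L / (2 * ℓ) ≤ (L - 2 * Real.log L - Real.log c₀) / ℓ)
    (f4 : (L - 2 * Real.log L - Real.log c₀) / ℓ + 1 ≤ 2 * L / ℓ)
    (f11 : 2 * (b + 1) * (2 * L / ℓ + M + 1) ^ 2 ≤ Real.exp L)
    (f12 : M + 1 ≤ L / (2 * ℓ)) :
    (binomialRandom V p).real
      {G | gammaMB G b ≤
        ((⌈(L - 2 * Real.log L - Real.log c₀) / ℓ⌉₊ + K : ℕ) : ℕ∞)} ≤ Real.exp (-L) := by
  set x₀ := (L - 2 * Real.log L - Real.log c₀) / ℓ with hx₀
  set s := ⌈x₀⌉₊ with hs
  have hL0 : 0 < L := by linarith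
  have hx₀pos : 0 ≤ x₀ := le_trans (by positivity) f3
  have hs1 : x₀ ≤ s := Nat.le_ceil _
  have hs2 : (s : ℝ) < x₀ + 1 := Nat.ceil_lt_add_one hx₀pos
  have hs3 : (s : ℝ) ≤ 2 * L / ℓ := hs2.le.trans f4
  set n := Fintype.card V with hnd
  have hnpos : (0 : ℝ) < n := by rw [hn]; positivity
  have hNj0 : (0 : ℝ) ≤ Nj b J := by positivity
  have hK0 : (0 : ℝ) ≤ K := by positivity
  have hJ0 : (0 : ℝ) ≤ J := by positivity
  have hb0 : (0 : ℝ) ≤ b := by positivity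
  have hbJ0 : (0 : ℝ) ≤ ((b : ℝ) + 1) * J := by positivity
  have hM0 : 0 ≤ M := by linarith
  have hsJ : J + 1 ≤ s + K := by
    have : (J : ℝ) + 1 ≤ s + K := by
      have : (J : ℝ) ≤ M := by linarith
      linarith
    exact_mod_cast this
  obtain ⟨i, hi⟩ : ∃ i, i + 1 + J = s + K := ⟨s + K - J - 1, by omega⟩
  have hir : ((i + 1 : ℕ) : ℝ) + J = s + K := by exact_mod_cast hi
  have h2Lℓ : 0 ≤ 2 * L / ℓ := by positivity
  have hbig : 2 * (2 * L / ℓ + M + 1) ≤ (n : ℝ) := by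
    rw [hn]
    exact (aux_sq hb0 (by linarith)).trans f11
  have hi1 : ((i + 1 : ℕ) : ℝ) ≤ 2 * L / ℓ + K := by linarith
  have hcard : i + 1 + (b + 1) * J < n := by
    have : ((i + 1 : ℕ) : ℝ) + ((b + 1) * J : ℕ) < n := by
      push_cast at hi1 ⊢
      linarith
    exact_mod_cast this
  have h := time_bound (V := V) p b i J hcard
  rw [hi] at h
  refine h.trans ?_
  rw [← hnd]
  set q := 1 - (p : ℝ) with hq
  set P := 1 - (p : ℝ) ^ (b + 1) with hP
  have hp1 : (p : ℝ) ≤ 1 := p.2.2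
  have hP0 : 0 ≤ P := by
    have := pow_le_one₀ (n := b + 1) hp0.le hp1
    rw [hP]; linarith
  have hmr : (n : ℝ) / 2 ≤ ((n - (i + 1) - Nj b J : ℕ) : ℝ) := by
    have h1 : (i + 1) + Nj b J ≤ n := by
      have : ((i + 1 : ℕ) : ℝ) + Nj b J ≤ n := by linarith
      exact_mod_cast this
    rw [Nat.sub_sub, Nat.cast_sub h1]
    push_cast at hi1 ⊢
    linarith
  set m := n - (i + 1) - Nj b J with hm
  -- lower bound of the rate
  have hqs : q ^ s = Real.exp (-(ℓ * s)) := by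
    rw [hℓd, ← Real.exp_nat_mul]; ring_nf
  have hexpx : Real.exp (-(ℓ * x₀)) = c₀ * (L ^ 2 * Real.exp (-L)) := by
    have : -(ℓ * x₀) = Real.log c₀ + (2 * Real.log L + (-L)) := by
      rw [hx₀]; field_simp; ring
    rw [this, Real.exp_add, Real.exp_add, Real.exp_log hc₀]
    congr 2
    rw [two_mul, Real.exp_add, Real.exp_log hL0]; ring
  have hqs_ge : q * (c₀ * (L ^ 2 * Real.exp (-L))) ≤ q ^ s := by
    rw [hqs, ← hexpx, hℓd, ← Real.exp_add]
    apply Real.exp_le_exp.mpr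
    have := mul_le_mul_of_nonneg_left hs2.le hℓ.le
    linarith
  have hrate : q ^ (i + 1) * P ^ J = q ^ s * q ^ K * (P / q) ^ J := by
    have hqJ : q ^ J ≠ 0 := (pow_pos hq0 J).ne'
    rw [← pow_add q s K, ← hi, pow_add q (i + 1) J, div_pow, mul_assoc, mul_div_cancel₀ _ hqJ]
  have hrate2 : 2 * (2 / ℓ + 1) * (L ^ 2 * Real.exp (-L)) ≤ q ^ (i + 1) * P ^ J := by
    rw [hrate]
    have hPq : 0 ≤ (P / q) ^ J := by positivity
    calc 2 * (2 / ℓ + 1) * (L ^ 2 * Real.exp (-L))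
        ≤ 2 * (q ^ (K + 1) * c₀ * (P / q) ^ J / 2) * (L ^ 2 * Real.exp (-L)) := by gcongr
      _ = q * (c₀ * (L ^ 2 * Real.exp (-L))) * q ^ K * (P / q) ^ J := by ring
      _ ≤ q ^ s * q ^ K * (P / q) ^ J := by gcongr
  have hle1 : q ^ (i + 1) * P ^ J ≤ 1 := by
    have h1 : q ^ (i + 1) ≤ 1 := pow_le_one₀ hq0.le (by rw [hq]; linarith)
    have h2 : P ^ J ≤ 1 := by
      apply pow_le_one₀ hP0
      rw [hP]
      have : 0 ≤ (p : ℝ) ^ (b + 1) := by positivity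
      linarith
    exact mul_le_one₀ h1 (pow_nonneg hP0 _) h2
  have hcm : (1 - q ^ (i + 1) * P ^ J) ^ m ≤ Real.exp (-((2 / ℓ + 1) * L ^ 2)) := by
    have h0 : 0 ≤ 1 - q ^ (i + 1) * P ^ J := by linarith
    calc (1 - q ^ (i + 1) * P ^ J) ^ m ≤ (Real.exp (-(q ^ (i + 1) * P ^ J))) ^ m := by
          apply pow_le_pow_left₀ h0
          have := Real.add_one_le_exp (-(q ^ (i + 1) * P ^ J))
          linarith
      _ = Real.exp (-(m * (q ^ (i + 1) * P ^ J))) := by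
          rw [← Real.exp_nat_mul]; ring_nf
      _ ≤ Real.exp (-((2 / ℓ + 1) * L ^ 2)) := by
          apply Real.exp_le_exp.mpr
          apply neg_le_neg
          have hpos : 0 ≤ 2 * (2 / ℓ + 1) * (L ^ 2 * Real.exp (-L)) := by positivity
          calc (2 / ℓ + 1) * L ^ 2 = (n / 2) * (2 * (2 / ℓ + 1) * (L ^ 2 * Real.exp (-L))) := by
                rw [hn]
                have : Real.exp L * Real.exp (-L) = 1 := by rw [← Real.exp_add]; simp
                calc (2 / ℓ + 1) * L ^ 2 = (2 / ℓ + 1) * L ^ 2 * (Real.exp L * Real.exp (-L)) := by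
                      rw [this, mul_one]
                  _ = _ := by ring
            _ ≤ m * (q ^ (i + 1) * P ^ J) := mul_le_mul hmr hrate2 hpos (by positivity)
  have hnpow : (n : ℝ) ^ (i + 1) * (n : ℝ) ^ (Nj b J) ≤ Real.exp (L * (2 * L / ℓ + M)) := by
    rw [← pow_add, hn, ← Real.exp_nat_mul]
    apply Real.exp_le_exp.mpr
    have h1 : ((i + 1 + Nj b J : ℕ) : ℝ) ≤ 2 * L / ℓ + M := by
      push_cast at hi1 ⊢
      linarith
    have := mul_le_mul_of_nonneg_right h1 hL0.le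
    linarith
  calc (n : ℝ) ^ (i + 1) * ((n : ℝ) ^ (Nj b J) * (1 - q ^ (i + 1) * P ^ J) ^ m)
      = ((n : ℝ) ^ (i + 1) * (n : ℝ) ^ (Nj b J)) * (1 - q ^ (i + 1) * P ^ J) ^ m := by ring
    _ ≤ Real.exp (L * (2 * L / ℓ + M)) * Real.exp (-((2 / ℓ + 1) * L ^ 2)) := by
        apply mul_le_mul hnpow hcm _ (Real.exp_pos _).le
        apply pow_nonneg
        linarith
    _ = Real.exp (L * (2 * L / ℓ + M) + -((2 / ℓ + 1) * L ^ 2)) := by rw [← Real.exp_add]
    _ ≤ Real.exp (-L) := by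
        apply Real.exp_le_exp.mpr
        have : L * (2 * L / ℓ + M) + -((2 / ℓ + 1) * L ^ 2) = L * (M - L) := by ring
        rw [this]
        have h5 : L * (M - L) ≤ L * (-1) := mul_le_mul_of_nonneg_left (by linarith) hL0.le
        linarith

end Pool.Agent.Work.MP_dfc2f8_pr
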