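import Pool.Agent.Work.MP_dfc2f8_pr.Final

/-!
# The domination game on the random graph: main theorem
-/

namespace Pool.Agent.Work.MP_dfc2f8_pr

open Finset MeasureTheory ProbabilityTheory SimpleGraph Filter Topology

theorem main_real (p : unitInterval) (hp0 : 0 < p) (hp1 : p < 1) (b : ℕ) (hb : 1 ≤ b) (K : ℕ) :
    Tendsto (fun n : ℕ => (binomialRandom (Fin n) p).real {G | sMB G b + K < gammaMB G b})
      atTop (𝓝 1) := by
  have hp0' : (0 : ℝ) < p := by exact_mod_cast hp0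
  have hp1' : (p : ℝ) < 1 := by exact_mod_cast hp1
  have hq0 : 0 < 1 - (p : ℝ) := by linarith
  set ℓ : ℝ := -Real.log (1 - (p : ℝ)) with hℓdef
  have hℓ : 0 < ℓ := by
    rw [hℓdef]
    have := Real.log_neg hq0 (by linarith)
    linarith
  have hℓd : 1 - (p : ℝ) = Real.exp (-ℓ) := by
    rw [hℓdef, neg_neg, Real.exp_log hq0]
  have hb' : (1 : ℝ) ≤ b := by exact_mod_cast hb
  have hlogb : 0 < Real.log (1 + (b : ℝ)) := Real.log_pos (by linarith)
  set η : ℝ := min (1 / (8 * Real.log (1 + (b : ℝ)))) (1 / (4 * ℓ)) with hη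
  have hη0 : 0 < η := by
    rw [hη]; apply lt_min <;> positivity
  have hη1 : η * Real.log (1 + (b : ℝ)) ≤ 1 / 8 := by
    have : η ≤ 1 / (8 * Real.log (1 + (b : ℝ))) := min_le_left _ _
    calc η * Real.log (1 + (b : ℝ)) ≤ 1 / (8 * Real.log (1 + (b : ℝ))) * Real.log (1 + (b : ℝ)) := by
          gcongr
      _ = 1 / 8 := by field_simp
  have hη2 : η ≤ 1 / (4 * ℓ) := min_le_right _ _
  set c₀ : ℝ := η / 64 with hc₀d
  have hc₀ : 0 < c₀ := by positivity
  -- the growth factor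
  have hκ : 1 < (1 - (p : ℝ) ^ (b + 1)) / (1 - (p : ℝ)) := by
    rw [one_lt_div hq0]
    have : (p : ℝ) ^ (b + 1) < (p : ℝ) ^ 1 := by
      apply pow_lt_pow_right_of_lt_one₀ hp0' hp1'
      omega
    rw [pow_one] at this
    linarith
  obtain ⟨J, hJ⟩ := pow_unbounded_of_one_lt
    (2 * (2 / ℓ + 1) / ((1 - (p : ℝ)) ^ (K + 1) * c₀)) hκ
  have hJ' : 2 / ℓ + 1 ≤ (1 - (p : ℝ)) ^ (K + 1) * c₀ *
      ((1 - (p : ℝ) ^ (b + 1)) / (1 - (p : ℝ))) ^ J / 2 := by
    rw [div_lt_iff₀ (by positivity)] at hJ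
    linarith
  set M : ℝ := (K : ℝ) + Nj b J + (b + 1) * J + J with hM
  have hM0 : 0 ≤ M := by positivity
  have hfacts := facts η c₀ ℓ b hη0 hℓ hc₀d M
  have hLn : Tendsto (fun n : ℕ => Real.log (n : ℝ)) atTop atTop :=
    Real.tendsto_log_atTop.comp tendsto_natCast_atTop_atTop
  have hev := hLn.eventually hfacts
  have hlim : Tendsto (fun n : ℕ => 1 - (2 * DD η c₀ ℓ (Real.log n) + Real.exp (-Real.log n)))
      atTop (𝓝 1) := by
    have h1 := (((DD_tendsto η c₀ ℓ hη0 hℓ).const_mul 2).add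
      (Real.tendsto_exp_neg_atTop_nhds_zero)).comp hLn
    have h2 := h1.const_sub 1
    simpa using h2
  refine tendsto_of_tendsto_of_tendsto_of_le_of_le' hlim tendsto_const_nhds ?_
    (Eventually.of_forall (fun n => measureReal_le_one))
  filter_upwards [hev, eventually_ge_atTop 1] with n hn hn1
  obtain ⟨f1, f2, f3, f4, f5, f6, f7, f8, f9, f10, f11, f12⟩ := hn
  have hnpos : (0 : ℝ) < n := by exact_mod_cast hn1
  have hnexp : ((Fintype.card (Fin n) : ℕ) : ℝ) = Real.exp (Real.log n) := by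
    rw [Fintype.card_fin, Real.exp_log hnpos]
  have hA := size_part (V := Fin n) p b ℓ η c₀ M (Real.log n) hq0 hℓd hℓ hη0 hη1 hη2 hc₀ hM0
    hnexp f1 f3 f4 f5 f6 f7 f8 f9 f10 f11
  have hB := time_part (V := Fin n) p b J K ℓ c₀ M (Real.log n) hq0 hp0' hb hℓd hℓ hc₀ le_rfl hJ'
    hnexp f1 f2 f3 f4 f11 f12
  set s := ⌈(Real.log n - 2 * Real.log (Real.log n) - Real.log c₀) / ℓ⌉₊ with hs
  set E := {G : SimpleGraph (Fin n) | sMB G b + K < gammaMB G b} with hE
  have hcompl : Eᶜ ⊆ {G : SimpleGraph (Fin n) | ¬ (sMB G b ≤ ((s : ℕ) : ℕ∞))} ∪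
      {G | gammaMB G b ≤ ((s + K : ℕ) : ℕ∞)} := by
    intro G hG
    rw [hE, Set.mem_compl_iff, Set.mem_ofPred_eq, not_lt] at hG
    by_cases h1 : sMB G b ≤ ((s : ℕ) : ℕ∞)
    · right
      rw [Set.mem_ofPred_eq]
      refine hG.trans ?_
      push_cast
      gcongr
    · left
      exact h1
  have h1 : (binomialRandom (Fin n) p).real Eᶜ ≤
      2 * DD η c₀ ℓ (Real.log n) + Real.exp (-Real.log n) :=
    (measureReal_mono hcompl (measure_ne_top _ _)).trans
      ((measureReal_union_le _ _).trans (add_le_add hA hB))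
  have h2 : (binomialRandom (Fin n) p).real Eᶜ = 1 - (binomialRandom (Fin n) p).real E := by
    rw [measureReal_compl (measurableSet_graph E)]
    simp
  linarith

/-- For every constant `p ∈ (0,1)`, every `b ≥ 1` and every constant `K`, with high probability
`γ_MB(G_{n,p}, b) > s_MB(G_{n,p}, b) + K`. -/
theorem main (p : unitInterval) (hp0 : 0 < p) (hp1 : p < 1) (b : ℕ) (hb : 1 ≤ b) (K : ℕ) :
    Tendsto (fun n : ℕ => binomialRandom (Fin n) p {G | sMB G b + K < gammaMB G b})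
      atTop (𝓝 1) := by
  have h := main_real p hp0 hp1 b hb K
  have h2 := (ENNReal.continuous_ofReal.tendsto 1).comp h
  rw [ENNReal.ofReal_one] at h2
  refine h2.congr (fun n => ?_)
  simp only [Function.comp]
  rw [ofReal_measureReal (measure_ne_top _ _)]

end Pool.Agent.Work.MP_dfc2f8_pr
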