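import Pool.Agent.Work.MP_dfc2f8_pr.TimeBound
import Pool.Agent.Work.MP_dfc2f8_pr.Beck

/-!
# First and second moments of the number of dominating sets extending a given set
-/

namespace Pool.Agent.Work.MP_dfc2f8_pr

open Finset MeasureTheory ProbabilityTheory SimpleGraph

universe u
variable {V : Type u} [DecidableEq V] [Fintype V]

/-- probability of a single graph -/
noncomputable def gw (p : unitInterval) (G : SimpleGraph V) : ℝ := (binomialRandom V p).real {G}

omit [DecidableEq V] [Fintype V] in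
lemma gw_nonneg (p : unitInterval) (G : SimpleGraph V) : 0 ≤ gw p G := measureReal_nonneg

lemma prob_eq_sum (p : unitInterval) (E : Set (SimpleGraph V)) [DecidablePred (· ∈ E)] :
    (binomialRandom V p).real E = ∑ G, gw p G * (if G ∈ E then 1 else 0) := by
  have : MeasurableSingletonClass (SimpleGraph V) := ⟨fun _ => measurableSet_graph _⟩
  have h := sum_measureReal_singleton (μ := binomialRandom V p) (s := univ.filter (· ∈ E))
  have h2 : ((univ.filter (· ∈ E) : Finset (SimpleGraph V)) : Set (SimpleGraph V)) = E := by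
    ext G; simp
  rw [h2] at h
  rw [← h, sum_filter]
  apply sum_congr rfl
  intro G _
  by_cases hG : G ∈ E
  · simp [hG, gw]
  · simp [hG]

lemma gw_sum (p : unitInterval) : ∑ G : SimpleGraph V, gw p G = 1 := by
  classical
  have h := prob_eq_sum (V := V) p Set.univ
  simp only [Set.mem_univ, if_true, mul_one] at h
  rw [← h]
  simp

/-- Markov's inequality -/
lemma markov (p : unitInterval) (f : SimpleGraph V → ℝ) (hf : ∀ G, 0 ≤ f G) (a : ℝ) (ha : 0 < a)
    (E : Set (SimpleGraph V)) (hE : ∀ G ∈ E, a ≤ f G) :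
    (binomialRandom V p).real E ≤ (∑ G, gw p G * f G) / a := by
  classical
  rw [le_div_iff₀ ha, prob_eq_sum p E, sum_mul]
  apply sum_le_sum
  intro G _
  have := gw_nonneg p G
  by_cases hG : G ∈ E
  · rw [if_pos hG, mul_one]
    exact mul_le_mul_of_nonneg_left (hE G hG) this
  · rw [if_neg hG, mul_zero, zero_mul]
    exact mul_nonneg this (hf G)

omit [DecidableEq V] [Fintype V] in
lemma isDominating_iff (G : SimpleGraph V) (D W : Finset V) (hDW : D ⊆ W) (x : V) :
    (∃ v ∈ D, G.Adj x v) ↔ ¬ Disjoint D (nb G W x) := by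
  rw [Finset.not_disjoint_iff]
  constructor
  · rintro ⟨v, hv, hadj⟩
    exact ⟨v, hv, mem_nb.mpr ⟨hDW hv, hadj⟩⟩
  · rintro ⟨v, hv, hv2⟩
    exact ⟨v, hv, (mem_nb.mp hv2).2⟩

theorem prob_dom (p : unitInterval) (D : Finset V) :
    (binomialRandom V p).real {G | IsDominating G D} =
      (1 - (1 - (p : ℝ)) ^ D.card) ^ (Fintype.card V - D.card) := by
  classical
  have h : {G : SimpleGraph V | IsDominating G D} =
      {G | ∀ x ∈ Dᶜ, (fun (_ : V) (R : Finset V) => ¬ Disjoint D R) x (nb G D x)} := by
    ext G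
    simp only [Set.mem_ofPred_eq, IsDominating, Finset.mem_compl]
    exact forall₂_congr (fun x _ => isDominating_iff G D D (Finset.Subset.refl D) x)
  rw [h]
  refine (prob_star p D (fun _ R => ¬ Disjoint D R)).trans ?_
  rw [prod_const, bern_one (p : ℝ) D D (Finset.Subset.refl D) _
    (fun R => Iff.rfl), card_compl]

theorem prob_dom_two (p : unitInterval) (D D' : Finset V) :
    (binomialRandom V p).real {G | IsDominating G D ∧ IsDominating G D'} ≤
      (1 - (1 - (p : ℝ)) ^ D.card - (1 - (p : ℝ)) ^ D'.card + (1 - (p : ℝ)) ^ (D ∪ D').card) ^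
        (Fintype.card V - (D ∪ D').card) := by
  classical
  have h : {G : SimpleGraph V | IsDominating G D ∧ IsDominating G D'} ⊆
      {G | ∀ x ∈ (D ∪ D')ᶜ, (fun (_ : V) (R : Finset V) => ¬ Disjoint D R ∧ ¬ Disjoint D' R) x
        (nb G (D ∪ D') x)} := by
    rintro G ⟨h1, h2⟩ x hx
    rw [Finset.mem_compl, mem_union, not_or] at hx
    exact ⟨(isDominating_iff G D _ subset_union_left x).mp (h1 x hx.1),
      (isDominating_iff G D' _ subset_union_right x).mp (h2 x hx.2)⟩
  refine (measureReal_mono h (measure_ne_top _ _)).trans ?_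
  refine (prob_star p (D ∪ D') (fun _ R => ¬ Disjoint D R ∧ ¬ Disjoint D' R)).le.trans ?_
  rw [prod_const, bern_two (p : ℝ) (D ∪ D') D D' subset_union_left
    subset_union_right _ (fun R => Iff.rfl), card_compl]

/-! ### Counting -/

lemma choose_sub_mul_le (N j : ℕ) (hjN : j ≤ N) : ∀ i ≤ j,
    (N - i).choose (j - i) * N ^ i ≤ N.choose j * j ^ i := by
  intro i
  induction i with
  | zero => intro _; simp
  | succ i ih =>
    intro hi
    have h1 := ih (by omega)
    have h2 : (N - i) * (N - (i + 1)).choose (j - (i + 1)) =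
        (N - i).choose (j - i) * (j - i) := by
      have e1 : N - i = (N - (i + 1)) + 1 := by omega
      have e2 : j - i = (j - (i + 1)) + 1 := by omega
      rw [e1, e2]
      simpa using Nat.add_one_mul_choose_eq (N - (i + 1)) (j - (i + 1))
    have h3 : (j - i) * N ≤ j * (N - i) := by
      zify [(by omega : i ≤ j), (by omega : i ≤ N)]
      nlinarith [(by exact_mod_cast hjN : (j : ℤ) ≤ N), (by positivity : (0 : ℤ) ≤ i)]
    rcases Nat.eq_zero_or_pos (N - i) with h0 | hpos
    · omega
    · have : (N - i) * ((N - (i + 1)).choose (j - (i + 1)) * N ^ (i + 1)) ≤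
          (N - i) * (N.choose j * j ^ (i + 1)) := by
        calc (N - i) * ((N - (i + 1)).choose (j - (i + 1)) * N ^ (i + 1))
            = ((N - i) * (N - (i + 1)).choose (j - (i + 1))) * N ^ (i + 1) := by ring
          _ = ((N - i).choose (j - i) * N ^ i) * ((j - i) * N) := by rw [h2]; ring
          _ ≤ (N.choose j * j ^ i) * (j * (N - i)) := Nat.mul_le_mul h1 h3
          _ = (N - i) * (N.choose j * j ^ (i + 1)) := by ring
      exact Nat.le_of_mul_le_mul_left this hpos

omit [Fintype V] in
lemma card_supersets (Ω B : Finset V) (j : ℕ) (hB : B ⊆ Ω) :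
    ((powersetCard j Ω).filter (fun A => B ⊆ A)).card ≤ (Ω.card - B.card).choose (j - B.card) := by
  have : ((powersetCard j Ω).filter (fun A => B ⊆ A)).card ≤
      (powersetCard (j - B.card) (Ω \ B)).card := by
    apply card_le_card_of_injOn (fun A => A \ B)
    · intro A hA
      rw [Finset.mem_coe, mem_filter, mem_powersetCard] at hA
      rw [Finset.mem_coe, mem_powersetCard]
      refine ⟨sdiff_subset_sdiff hA.1.1 (Finset.Subset.refl B), ?_⟩
      rw [card_sdiff_of_subset hA.2, hA.1.2]
    · intro A hA A' hA' h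
      rw [Finset.mem_coe, mem_filter] at hA hA'
      simp only at h
      rw [← sdiff_union_of_subset hA.2, h, sdiff_union_of_subset hA'.2]
  rwa [card_powersetCard, card_sdiff_of_subset hB] at this

omit [Fintype V] in
lemma card_inter_eq (Ω A : Finset V) (j i : ℕ) (hA : A ∈ powersetCard j Ω) (hΩ : 0 < Ω.card) :
    (((powersetCard j Ω).filter (fun A' => (A ∩ A').card = i)).card : ℝ) ≤
      (Ω.card.choose j : ℝ) * ((j : ℝ) ^ 2 / Ω.card) ^ i := by
  rw [mem_powersetCard] at hA
  have hjN : j ≤ Ω.card := by rw [← hA.2]; exact card_le_card hA.1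
  by_cases hij : i ≤ j
  · have h1 : ((powersetCard j Ω).filter (fun A' => (A ∩ A').card = i)).card ≤
        ∑ B ∈ powersetCard i A, ((powersetCard j Ω).filter (fun A' => B ⊆ A')).card := by
      refine (card_le_card ?_).trans card_biUnion_le
      intro A' hA'
      rw [mem_filter] at hA'
      rw [mem_biUnion]
      refine ⟨A ∩ A', ?_, ?_⟩
      · rw [mem_powersetCard]; exact ⟨inter_subset_left, hA'.2⟩
      · rw [mem_filter]; exact ⟨hA'.1, inter_subset_right⟩
    have h2 : ∑ B ∈ powersetCard i A, ((powersetCard j Ω).filter (fun A' => B ⊆ A')).card ≤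
        j ^ i * (Ω.card - i).choose (j - i) := by
      have : ∀ B ∈ powersetCard i A, ((powersetCard j Ω).filter (fun A' => B ⊆ A')).card ≤
          (Ω.card - i).choose (j - i) := by
        intro B hB
        rw [mem_powersetCard] at hB
        have := card_supersets Ω B j (hB.1.trans hA.1)
        rwa [hB.2] at this
      refine (sum_le_sum this).trans ?_
      rw [sum_const, card_powersetCard, hA.2, smul_eq_mul]
      exact Nat.mul_le_mul_right _ (Nat.choose_le_pow _ _)
    have h3 := choose_sub_mul_le Ω.card j hjN i hij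
    have hN : (0 : ℝ) < Ω.card := by exact_mod_cast hΩ
    have h4 : (((powersetCard j Ω).filter (fun A' => (A ∩ A').card = i)).card : ℝ) ≤
        (j : ℝ) ^ i * ((Ω.card - i).choose (j - i) : ℕ) := by
      exact_mod_cast h1.trans h2
    have h5 : (((Ω.card - i).choose (j - i) : ℕ) : ℝ) * (Ω.card : ℝ) ^ i ≤
        (Ω.card.choose j : ℝ) * (j : ℝ) ^ i := by exact_mod_cast h3
    have h6 : (((Ω.card - i).choose (j - i) : ℕ) : ℝ) ≤
        (Ω.card.choose j : ℝ) * (j : ℝ) ^ i / (Ω.card : ℝ) ^ i := by
      rw [le_div_iff₀ (by positivity)]; exact h5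
    calc (((powersetCard j Ω).filter (fun A' => (A ∩ A').card = i)).card : ℝ)
        ≤ (j : ℝ) ^ i * ((Ω.card - i).choose (j - i) : ℕ) := h4
      _ ≤ (j : ℝ) ^ i * ((Ω.card.choose j : ℝ) * (j : ℝ) ^ i / (Ω.card : ℝ) ^ i) := by gcongr
      _ = (Ω.card.choose j : ℝ) * ((j : ℝ) ^ 2 / Ω.card) ^ i := by
          rw [div_pow]; ring
  · have : (powersetCard j Ω).filter (fun A' => (A ∩ A').card = i) = ∅ := by
      rw [filter_eq_empty_iff]
      intro A' _ h
      have := card_le_card (inter_subset_left : A ∩ A' ⊆ A)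
      rw [hA.2, h] at this
      exact hij this
    rw [this, card_empty, Nat.cast_zero]
    positivity

omit [Fintype V] in
/-- the basic counting inequality over pairs -/
lemma sum_inter_le (Ω : Finset V) (j : ℕ) (hΩ : 0 < Ω.card) (h : ℕ → ℝ) (hh : ∀ i, 0 ≤ h i) :
    ∑ A ∈ powersetCard j Ω, ∑ A' ∈ powersetCard j Ω, h (A ∩ A').card ≤
      (Ω.card.choose j : ℝ) ^ 2 * ∑ i ∈ range (j + 1), ((j : ℝ) ^ 2 / Ω.card) ^ i * h i := by
  have hA : ∀ A ∈ powersetCard j Ω, ∑ A' ∈ powersetCard j Ω, h (A ∩ A').card ≤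
      (Ω.card.choose j : ℝ) * ∑ i ∈ range (j + 1), ((j : ℝ) ^ 2 / Ω.card) ^ i * h i := by
    intro A hA
    have hmaps : ∀ A' ∈ powersetCard j Ω, (A ∩ A').card ∈ range (j + 1) := by
      intro A' _
      rw [mem_range, Nat.lt_succ_iff]
      have := card_le_card (inter_subset_left : A ∩ A' ⊆ A)
      rw [mem_powersetCard] at hA
      omega
    rw [← sum_fiberwise_of_maps_to hmaps, mul_sum]
    apply sum_le_sum
    intro i _
    have : ∑ A' ∈ (powersetCard j Ω).filter (fun A' => (A ∩ A').card = i), h (A ∩ A').card =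
        (((powersetCard j Ω).filter (fun A' => (A ∩ A').card = i)).card : ℝ) * h i := by
      rw [← nsmul_eq_mul, ← sum_const]
      apply sum_congr rfl
      intro A' hA'
      rw [mem_filter] at hA'
      rw [hA'.2]
    rw [this, ← mul_assoc]
    exact mul_le_mul_of_nonneg_right (card_inter_eq Ω A j i hA hΩ) (hh i)
  refine (sum_le_sum hA).trans ?_
  rw [sum_const, card_powersetCard, nsmul_eq_mul]
  apply le_of_eq
  ring

end Pool.Agent.Work.MP_dfc2f8_pr
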