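import Pool.Agent.Work.MP_dfc2f8_pr.Basic

/-!
# The first phase: following a random sequence of vertices
-/

namespace Pool.Agent.Work.MP_dfc2f8_pr

open Finset

variable {V : Type*} [DecidableEq V] [Fintype V]

open Classical in
/-- fraction of bad continuations (with repetition) of length `k` -/
noncomputable def gav (Bad : Finset V → Prop) : ℕ → Finset V → ℝ
  | 0, D => if Bad D then 1 else 0
  | k + 1, D => (Fintype.card V : ℝ)⁻¹ * ∑ t : V, gav Bad k (insert t D)

lemma gav_nonneg (Bad : Finset V → Prop) : ∀ (k : ℕ) (D : Finset V), 0 ≤ gav Bad k D := by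
  intro k
  induction k with
  | zero => intro D; unfold gav; split_ifs <;> norm_num
  | succ k ih =>
    intro D; unfold gav
    have : 0 ≤ ∑ t : V, gav Bad k (insert t D) := sum_nonneg (fun t _ => ih _)
    positivity

theorem phase_one {b : ℕ} {Goal : Finset V → Prop} {Bad : Finset V → Prop} {m : ℕ} (c : ℕ)
    (hc : c < Fintype.card V) :
    ∀ (k : ℕ) (D S : Finset V), Disjoint D S → D.card + S.card + (b + 1) * k ≤ c →
      gav Bad k D * ((Fintype.card V : ℝ) / ((Fintype.card V : ℝ) - c)) ^ k < 1 →
      (∀ D' S' : Finset V, Disjoint D' S' → D ⊆ D' → D'.card = D.card + k →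
        S'.card ≤ S.card + b * k → ¬ Bad D' → Forces b Goal m D' S') →
      Forces b Goal (k + m) D S := by
  intro k
  induction k with
  | zero =>
    intro D S hDS _ hlt hyp
    rw [Nat.zero_add]
    apply hyp D S hDS (Finset.Subset.refl D) (by simp) (by simp)
    intro hB
    simp [gav, hB] at hlt
  | succ k ih =>
    intro D S hDS hcard hlt hyp
    set n := Fintype.card V with hn
    have hnc : (0 : ℝ) < (n : ℝ) - c := by
      have : (c : ℝ) < n := by exact_mod_cast hc
      linarith
    have hnpos : (0 : ℝ) < n := by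
      have : (0 : ℝ) ≤ c := by positivity
      linarith
    set U := (D ∪ S)ᶜ with hU
    have hUcard : (n : ℝ) - c ≤ U.card := by
      have h1 : U.card + (D ∪ S).card = n := by
        rw [hU, card_compl_add_card]
      have h2 : (D ∪ S).card ≤ D.card + S.card := card_union_le D S
      have h3 : D.card + S.card ≤ c := by nlinarith
      have h4 : (D ∪ S).card ≤ c := h2.trans h3
      have h5 : (U.card : ℝ) + (D ∪ S).card = n := by exact_mod_cast h1
      have h6 : ((D ∪ S).card : ℝ) ≤ c := by exact_mod_cast h4
      linarith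
    have hUpos : (0 : ℝ) < U.card := lt_of_lt_of_le hnc hUcard
    have hUne : U.Nonempty := by
      rw [← card_pos]; exact_mod_cast hUpos
    obtain ⟨t, htU, htmin⟩ := exists_min_image U (fun t => gav Bad k (insert t D)) hUne
    have hg0 := gav_nonneg Bad (k + 1) D
    have havg : (U.card : ℝ) * gav Bad k (insert t D) ≤ n * gav Bad (k + 1) D := by
      have h1 : (U.card : ℝ) * gav Bad k (insert t D) ≤ ∑ x ∈ U, gav Bad k (insert x D) := by
        rw [← nsmul_eq_mul, ← sum_const]
        exact sum_le_sum (fun x hx => htmin x hx)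
      have h2 : ∑ x ∈ U, gav Bad k (insert x D) ≤ ∑ x : V, gav Bad k (insert x D) := by
        apply sum_le_sum_of_subset_of_nonneg (subset_univ U)
        intro x _ _
        exact gav_nonneg Bad k _
      have h3 : (n : ℝ) * gav Bad (k + 1) D = ∑ x : V, gav Bad k (insert x D) := by
        rw [gav, ← hn]; field_simp
      linarith
    have hstep : gav Bad k (insert t D) ≤ (n / ((n : ℝ) - c)) * gav Bad (k + 1) D := by
      rw [div_mul_eq_mul_div, le_div_iff₀ hnc]
      have hg := gav_nonneg Bad k (insert t D)
      nlinarith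
    have htU' := htU
    simp only [hU, mem_compl, mem_union, not_or] at htU'
    have : k + 1 + m = (k + m) + 1 := by ring
    rw [this]
    refine Or.inr ⟨t, htU'.1, htU'.2, ?_⟩
    intro T hTb hT
    have hTcard : (S ∪ T).card ≤ S.card + b := (card_union_le S T).trans (by omega)
    have hDcard : (insert t D).card = D.card + 1 := card_insert_of_notMem htU'.1
    apply ih (insert t D) (S ∪ T)
    · rw [Finset.disjoint_left]
      intro y hy hy'
      rw [mem_insert] at hy
      rw [mem_union] at hy'
      rcases hy with rfl | hy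
      · rcases hy' with hy' | hy'
        · exact htU'.2 hy'
        · exact (hT y hy').1 rfl
      · rcases hy' with hy' | hy'
        · exact (Finset.disjoint_left.mp hDS) hy hy'
        · exact (hT y hy').2.1 hy
    · rw [hDcard]
      have : (b + 1) * (k + 1) = (b + 1) * k + (b + 1) := by ring
      omega
    · have hρ : 0 ≤ ((n : ℝ) / ((n : ℝ) - c)) ^ k := by positivity
      calc gav Bad k (insert t D) * ((n : ℝ) / ((n : ℝ) - c)) ^ k
          ≤ ((n / ((n : ℝ) - c)) * gav Bad (k + 1) D) * ((n : ℝ) / ((n : ℝ) - c)) ^ k :=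
            mul_le_mul_of_nonneg_right hstep hρ
        _ = gav Bad (k + 1) D * ((n : ℝ) / ((n : ℝ) - c)) ^ (k + 1) := by ring
        _ < 1 := hlt
    · intro D' S' hd hsub hc1 hc2 hnb
      apply hyp D' S' hd ((subset_insert t D).trans hsub) _ _ hnb
      · rw [hc1, hDcard]; ring
      · have : b * (k + 1) = b * k + b := by ring
        omega

/-- the average over graphs (or any finite weighted family) of the fraction of bad continuations
is at most the worst probability of being bad -/
theorem gav_mean {Ω : Type*} [Fintype Ω] (w : Ω → ℝ)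
    (Bad : Ω → Finset V → Prop) (δ : ℝ) [∀ ω D, Decidable (Bad ω D)]
    (hn : 0 < Fintype.card V)
    (hδ : ∀ D, ∑ ω, w ω * (if Bad ω D then 1 else 0) ≤ δ) :
    ∀ (k : ℕ) (D : Finset V), ∑ ω, w ω * gav (Bad ω) k D ≤ δ := by
  intro k
  induction k with
  | zero =>
    intro D
    refine le_trans (le_of_eq ?_) (hδ D)
    apply sum_congr rfl
    intro ω _
    unfold gav
    congr
  | succ k ih =>
    intro D
    have hnpos : (0 : ℝ) < Fintype.card V := by exact_mod_cast hn
    have h1 : ∑ ω, w ω * gav (Bad ω) (k + 1) D =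
        (Fintype.card V : ℝ)⁻¹ * ∑ t : V, ∑ ω, w ω * gav (Bad ω) k (insert t D) := by
      rw [sum_comm, mul_sum]
      apply sum_congr rfl
      intro ω _
      rw [gav, ← mul_sum]
      ring
    rw [h1]
    have h2 : ∑ t : V, ∑ ω, w ω * gav (Bad ω) k (insert t D) ≤ ∑ _t : V, δ :=
      sum_le_sum (fun t _ => ih (insert t D))
    rw [sum_const, nsmul_eq_mul, card_univ] at h2
    calc (Fintype.card V : ℝ)⁻¹ * ∑ t : V, ∑ ω, w ω * gav (Bad ω) k (insert t D)
        ≤ (Fintype.card V : ℝ)⁻¹ * ((Fintype.card V : ℝ) * δ) := by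
          apply mul_le_mul_of_nonneg_left h2; positivity
      _ = δ := by field_simp

end Pool.Agent.Work.MP_dfc2f8_pr
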