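import Mathlib

/-!
# Independence of the neighbourhoods in the binomial random graph
-/

namespace Pool.Agent.Work.MP_dfc2f8_pr

open Finset MeasureTheory ProbabilityTheory SimpleGraph

/-- weight of the event `Q` for a `p`-random subset of `W` -/
noncomputable def bern {V : Type*} [DecidableEq V] (p : ℝ) (W : Finset V)
    (Q : Finset V → Prop) [DecidablePred Q] : ℝ :=
  ∑ R ∈ W.powerset.filter Q, p ^ R.card * (1 - p) ^ (W \ R).card

lemma measurableSet_graph {V : Type*} [Finite V] (s : Set (SimpleGraph V)) : MeasurableSet s := by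
  have h : s = edgeSet ⁻¹' (edgeSet '' s) :=
    (Set.preimage_image_eq s edgeSet_injective).symm
  rw [h]
  apply measurable_edgeSet
  exact (Set.toFinite _).measurableSet

open Classical in
/-- the neighbours of `x` in `W` -/
noncomputable def nb {V : Type*} (G : SimpleGraph V) (W : Finset V) (x : V) : Finset V :=
  W.filter (fun y => G.Adj x y)

lemma mem_nb {V : Type*} {G : SimpleGraph V} {W : Finset V} {x y : V} :
    y ∈ nb G W x ↔ y ∈ W ∧ G.Adj x y := by
  classical
  unfold nb
  rw [mem_filter]

lemma nb_subset {V : Type*} (G : SimpleGraph V) (W : Finset V) (x : V) : nb G W x ⊆ W := by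
  intro y hy
  exact (mem_nb.mp hy).1

variable {V : Type*} [Fintype V] [DecidableEq V]

theorem prob_nbhd (p : unitInterval) (W : Finset V) (R : V → Finset V)
    (hR : ∀ x ∈ Wᶜ, R x ⊆ W) :
    (binomialRandom V p).real {G | ∀ x ∈ Wᶜ, nb G W x = R x} =
      ∏ x ∈ Wᶜ, ((p : ℝ) ^ (R x).card * (1 - p : ℝ) ^ (W \ R x).card) := by
  -- the edges concerned
  set E : Finset (Sym2 V) := (Wᶜ ×ˢ W).image (fun z => s(z.1, z.2)) with hE
  set ν : Sym2 V → Measure Prop := fun e =>
    unitInterval.toNNReal p • Measure.dirac (e ∈ (Sym2.diagSetᶜ : Set (Sym2 V))) +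
      unitInterval.toNNReal (unitInterval.symm p) • Measure.dirac False with hν
  have hinj : Set.InjOn (fun z : V × V => s(z.1, z.2)) (↑(Wᶜ ×ˢ W) : Set (V × V)) := by
    rintro ⟨a, b⟩ hab ⟨c, d⟩ hcd h
    simp only [coe_product, Set.mem_prod, Finset.mem_coe, Finset.mem_compl] at hab hcd
    simp only [Sym2.eq_iff] at h
    rcases h with ⟨rfl, rfl⟩ | ⟨rfl, rfl⟩
    · rfl
    · exact absurd hab.2 hcd.1
  -- box
  let t : Sym2 V → Set Prop := fun e => {P | P ↔ ∃ z ∈ Wᶜ ×ˢ W, s(z.1, z.2) = e ∧ z.2 ∈ R z.1}
  have hprob : ∀ e, IsProbabilityMeasure (ν e) := by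
    intro e
    constructor
    simp only [hν, measure_univ]
  have hlaw : (binomialRandom V p) =
      Measure.map (fun P : Sym2 V → Prop => fromEdgeSet {e | P e}) (Measure.infinitePi ν) := by
    rw [binomialRandom_eq_map, setBernoulli_eq_map, Measure.map_map]
    · rfl
    · exact measurable_fromEdgeSet
    · exact MeasurableEquiv.setOfPred.measurable
  have hmeas : Measurable (fun P : Sym2 V → Prop => fromEdgeSet {e | P e}) :=
    measurable_fromEdgeSet.comp MeasurableEquiv.setOfPred.measurable
  have hset : (fun P : Sym2 V → Prop => fromEdgeSet {e | P e}) ⁻¹'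
      {G | ∀ x ∈ Wᶜ, nb G W x = R x} = (↑E : Set (Sym2 V)).pi t := by
    ext P
    simp only [Set.mem_preimage, Set.mem_ofPred_eq, Set.mem_pi, Finset.mem_coe]
    constructor
    · intro h e he
      rw [hE, mem_image] at he
      obtain ⟨⟨x, y⟩, hz, rfl⟩ := he
      have hz' := hz
      rw [mem_product] at hz'
      have hxy : x ≠ y := by
        rintro rfl
        exact (Finset.mem_compl.mp hz'.1) hz'.2
      have hx := h x hz'.1
      have key : P s(x, y) ↔ y ∈ R x := by
        rw [← hx, mem_nb]
        simp only [fromEdgeSet_adj, Set.mem_ofPred_eq]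
        constructor
        · intro hP; exact ⟨hz'.2, hP, hxy⟩
        · rintro ⟨_, hP, _⟩; exact hP
      show P s(x, y) ↔ _
      rw [key]
      constructor
      · intro hy; exact ⟨(x, y), hz, rfl, hy⟩
      · rintro ⟨z, hz1, hz2, hz3⟩
        have := hinj (Finset.mem_coe.mpr hz1) (Finset.mem_coe.mpr hz) hz2
        rw [this] at hz3
        exact hz3
    · intro h x hx
      ext y
      rw [mem_nb]
      simp only [fromEdgeSet_adj, Set.mem_ofPred_eq]
      constructor
      · rintro ⟨hyW, hP, _⟩
        have hz : (x, y) ∈ Wᶜ ×ˢ W := mem_product.mpr ⟨hx, hyW⟩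
        have := h s(x, y) (by rw [hE, mem_image]; exact ⟨(x, y), hz, rfl⟩)
        have h2 := this.mp hP
        obtain ⟨z, hz1, hz2, hz3⟩ := h2
        have := hinj (Finset.mem_coe.mpr hz1) (Finset.mem_coe.mpr hz) hz2
        rw [this] at hz3
        exact hz3
      · intro hy
        have hyW := hR x hx hy
        have hz : (x, y) ∈ Wᶜ ×ˢ W := mem_product.mpr ⟨hx, hyW⟩
        have := h s(x, y) (by rw [hE, mem_image]; exact ⟨(x, y), hz, rfl⟩)
        refine ⟨hyW, this.mpr ⟨(x, y), hz, rfl, hy⟩, ?_⟩
        rintro rfl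
        exact (Finset.mem_compl.mp hx) hyW
  rw [measureReal_def, hlaw, Measure.map_apply hmeas (measurableSet_graph _), hset,
    Measure.infinitePi_pi]
  · rw [hE, prod_image hinj, ENNReal.toReal_prod, prod_product]
    apply prod_congr rfl
    intro x hx
    -- evaluate each factor
    have hval : ∀ y ∈ W, ((ν s(x, y)) (t s(x, y))).toReal =
        if y ∈ R x then (p : ℝ) else 1 - p := by
      intro y hy
      have hxy : x ≠ y := by
        rintro rfl
        exact (Finset.mem_compl.mp hx) hy
      have hz : (x, y) ∈ Wᶜ ×ˢ W := mem_product.mpr ⟨hx, hy⟩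
      have ht : t s(x, y) = {P | P ↔ y ∈ R x} := by
        ext P
        show (P ↔ _) ↔ (P ↔ _)
        have : (∃ z ∈ Wᶜ ×ˢ W, s(z.1, z.2) = s(x, y) ∧ z.2 ∈ R z.1) ↔ y ∈ R x := by
          constructor
          · rintro ⟨z, hz1, hz2, hz3⟩
            have := hinj (Finset.mem_coe.mpr hz1) (Finset.mem_coe.mpr hz) hz2
            rw [this] at hz3
            exact hz3
          · intro h; exact ⟨(x, y), hz, rfl, h⟩
        rw [this]
      rw [ht]
      have hmem : (s(x, y) ∈ (Sym2.diagSetᶜ : Set (Sym2 V))) = True := by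
        simp [hxy]
      have hνe : ν s(x, y) = unitInterval.toNNReal p • Measure.dirac True +
          unitInterval.toNNReal (unitInterval.symm p) • Measure.dirac False := by
        rw [← hmem]
      rw [hνe, Measure.add_apply, Measure.smul_apply, Measure.smul_apply,
        Measure.dirac_apply' _ (Set.toFinite _).measurableSet,
        Measure.dirac_apply' _ (Set.toFinite _).measurableSet]
      by_cases hyR : y ∈ R x
      · rw [if_pos hyR, Set.indicator_of_mem, Set.indicator_of_notMem]
        · simp [ENNReal.smul_def]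
        · simp [hyR]
        · simp [hyR]
      · rw [if_neg hyR, Set.indicator_of_notMem, Set.indicator_of_mem]
        · simp [ENNReal.smul_def]
        · simp [hyR]
        · simp [hyR]
    rw [prod_congr rfl hval, prod_ite, prod_const, prod_const]
    congr 2
    · congr 1
      ext y; simp only [mem_filter]; exact ⟨fun h => h.2, fun h => ⟨hR x hx h, h⟩⟩
    · congr 1
      ext y; simp only [mem_filter, mem_sdiff]
  · intro e _
    exact (Set.toFinite _).measurableSet

open Classical in
theorem prob_star (p : unitInterval) (W : Finset V) (Q : V → Finset V → Prop) :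
    (binomialRandom V p).real {G | ∀ x ∈ Wᶜ, Q x (nb G W x)} =
      ∏ x ∈ Wᶜ, bern (p : ℝ) W (Q x) := by
  set t : V → Finset (Finset V) := fun x => if x ∈ W then {∅} else W.powerset.filter (Q x) with ht
  have hset : {G : SimpleGraph V | ∀ x ∈ Wᶜ, Q x (nb G W x)} =
      ⋃ R ∈ Fintype.piFinset t, {G | ∀ x ∈ Wᶜ, nb G W x = R x} := by
    ext G
    simp only [Set.mem_ofPred_eq, Set.mem_iUnion, exists_prop]
    constructor
    · intro h
      refine ⟨fun x => if x ∈ W then ∅ else nb G W x, ?_, ?_⟩
      · rw [Fintype.mem_piFinset]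
        intro x
        simp only [ht]
        by_cases hx : x ∈ W
        · simp [hx]
        · simp only [hx, if_false, mem_filter, mem_powerset]
          exact ⟨nb_subset _ _ _, h x (Finset.mem_compl.mpr hx)⟩
      · intro x hx
        rw [Finset.mem_compl] at hx
        simp [hx]
    · rintro ⟨R, hR, h⟩ x hx
      rw [h x hx]
      rw [Fintype.mem_piFinset] at hR
      have := hR x
      rw [Finset.mem_compl] at hx
      simp only [ht, hx, if_false, mem_filter] at this
      exact this.2
  rw [hset, measureReal_biUnion_finset]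
  · have h1 : ∀ R ∈ Fintype.piFinset t,
        (binomialRandom V p).real {G | ∀ x ∈ Wᶜ, nb G W x = R x} =
        ∏ x, (if x ∈ W then 1 else ((p : ℝ) ^ (R x).card * (1 - p : ℝ) ^ (W \ R x).card)) := by
      intro R hR
      rw [Fintype.mem_piFinset] at hR
      rw [prob_nbhd p W R]
      · rw [← prod_filter_mul_prod_filter_not univ (fun x => x ∈ W)]
        have e1 : ∏ x ∈ univ.filter (fun x => x ∈ W), (if x ∈ W then (1 : ℝ) else
            ((p : ℝ) ^ (R x).card * (1 - p : ℝ) ^ (W \ R x).card)) = 1 := by
          apply prod_eq_one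
          intro x hx
          rw [mem_filter] at hx
          simp [hx.2]
        rw [e1, one_mul]
        apply prod_congr
        · ext x; simp
        · intro x hx
          rw [Finset.mem_filter] at hx
          simp [hx.2]
      · intro x hx
        have := hR x
        rw [Finset.mem_compl] at hx
        simp only [ht, hx, if_false, mem_filter, mem_powerset] at this
        exact this.1
    rw [sum_congr rfl h1,
      ← prod_univ_sum t (fun x R => if x ∈ W then (1 : ℝ) else
        ((p : ℝ) ^ R.card * (1 - p : ℝ) ^ (W \ R).card)),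
      ← prod_filter_mul_prod_filter_not univ (fun x => x ∈ W)]
    have e1 : ∏ x ∈ univ.filter (fun x => x ∈ W), (∑ R ∈ t x, if x ∈ W then (1 : ℝ) else
        ((p : ℝ) ^ R.card * (1 - p : ℝ) ^ (W \ R).card)) = 1 := by
      apply prod_eq_one
      intro x hx
      rw [mem_filter] at hx
      simp [hx.2, ht]
    rw [e1, one_mul]
    apply prod_congr
    · ext x; simp
    · intro x hx
      rw [Finset.mem_compl] at hx
      simp only [ht, hx, if_false]
      rfl
  · intro R hR R' hR' hne
    rw [Function.onFun, Set.disjoint_left]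
    intro G hG hG'
    apply hne
    funext x
    rw [Finset.mem_coe, Fintype.mem_piFinset] at hR hR'
    by_cases hx : x ∈ W
    · have h1 := hR x
      have h2 := hR' x
      simp only [ht, hx, if_true, mem_singleton] at h1 h2
      rw [h1, h2]
    · rw [← hG x (Finset.mem_compl.mpr hx), ← hG' x (Finset.mem_compl.mpr hx)]
  · intro R _
    exact measurableSet_graph _

end Pool.Agent.Work.MP_dfc2f8_pr
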