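import Pool.Agent.Work.MP_dfc2f8_pr.Moments

/-!
# Second moments of the family of dominating sets extending a given set
-/

namespace Pool.Agent.Work.MP_dfc2f8_pr

open Finset MeasureTheory ProbabilityTheory SimpleGraph

universe u
variable {V : Type u} [DecidableEq V] [Fintype V]

open Classical in
/-- the sets `A` of size `j`, disjoint from `T`, with `T ∪ A` dominating -/
noncomputable def Fam (G : SimpleGraph V) (T : Finset V) (j : ℕ) : Finset (Finset V) :=
  (powersetCard j Tᶜ).filter (fun A => IsDominating G (T ∪ A))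

/-- expected size of the family -/
noncomputable def mu (q : ℝ) (n r j : ℕ) : ℝ :=
  ((n - r).choose j : ℝ) * (1 - q ^ (r + j)) ^ (n - (r + j))

lemma one_sub_ge_exp {a : ℝ} (ha0 : 0 ≤ a) (ha : a ≤ 1 / 2) : Real.exp (-(2 * a)) ≤ 1 - a := by
  rw [Real.exp_neg]
  have h1 : 1 + 2 * a ≤ Real.exp (2 * a) := by linarith [Real.add_one_le_exp (2 * a)]
  have h2 : (Real.exp (2 * a))⁻¹ ≤ (1 + 2 * a)⁻¹ := by
    apply inv_anti₀ (by linarith) h1
  refine h2.trans ?_
  rw [inv_le_iff_one_le_mul₀ (by linarith)]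
  nlinarith

theorem pair_prob (p : unitInterval) (T A A' : Finset V) (j : ℕ)
    (hA : A ∈ powersetCard j Tᶜ) (hA' : A' ∈ powersetCard j Tᶜ)
    (ha : (1 - (p : ℝ)) ^ (T.card + j) ≤ 1 / 2) :
    (binomialRandom V p).real {G | IsDominating G (T ∪ A) ∧ IsDominating G (T ∪ A')} ≤
      ((1 - (1 - (p : ℝ)) ^ (T.card + j)) ^ (Fintype.card V - (T.card + j))) ^ 2 *
        (Real.exp (4 * (1 - (p : ℝ)) ^ (T.card + j) * j) *
          Real.exp (4 * Fintype.card V * (1 - (p : ℝ)) ^ (T.card + j) *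
            (1 - (p : ℝ)) ^ (j - (A ∩ A').card))) := by
  set q : ℝ := 1 - (p : ℝ) with hq
  have hq0 : 0 ≤ q := by have := p.2.2; rw [hq]; linarith
  have hq1 : q ≤ 1 := by have := p.2.1; rw [hq]; linarith
  set s := T.card + j with hs
  set a := q ^ s with hadef
  have ha0 : 0 ≤ a := by positivity
  set n := Fintype.card V with hn
  set i := (A ∩ A').card with hi
  rw [mem_powersetCard] at hA hA'
  have hTA : Disjoint T A := by
    rw [Finset.disjoint_right]
    intro x hx
    exact Finset.mem_compl.mp (hA.1 hx)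
  have hTA' : Disjoint T A' := by
    rw [Finset.disjoint_right]
    intro x hx
    exact Finset.mem_compl.mp (hA'.1 hx)
  have c1 : (T ∪ A).card = s := by rw [card_union_of_disjoint hTA, hA.2]
  have c2 : (T ∪ A').card = s := by rw [card_union_of_disjoint hTA', hA'.2]
  have hij : i ≤ j := by
    rw [hi, ← hA.2]; exact card_le_card inter_subset_left
  have c3 : (T ∪ A ∪ (T ∪ A')).card = s + (j - i) := by
    have h1 : T ∪ A ∪ (T ∪ A') = T ∪ (A ∪ A') := by
      ext x; simp only [mem_union]; tauto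
    have h2 : Disjoint T (A ∪ A') := by
      rw [disjoint_union_right]; exact ⟨hTA, hTA'⟩
    have h3 := card_union_add_card_inter A A'
    rw [h1, card_union_of_disjoint h2]
    omega
  have c4 : s + (j - i) ≤ n := by rw [← c3, hn]; exact card_le_univ _
  refine (prob_dom_two p (T ∪ A) (T ∪ A')).trans ?_
  rw [c1, c2, c3, ← hq, ← hn]
  set m := n - (s + (j - i)) with hm
  set d := q ^ (j - i) with hd
  have hd0 : 0 ≤ d := by positivity
  have hd1 : d ≤ 1 := pow_le_one₀ hq0 hq1
  have hbase_eq : 1 - q ^ s - q ^ s + q ^ (s + (j - i)) = 1 - 2 * a + a * d := by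
    rw [pow_add q s (j - i), ← hadef, ← hd]; ring
  rw [hbase_eq]
  have hbase0 : 0 ≤ 1 - 2 * a + a * d := by nlinarith
  have hexp1 : 1 + 4 * a * d ≤ Real.exp (4 * a * d) := by
    linarith [Real.add_one_le_exp (4 * a * d)]
  have hbase : 1 - 2 * a + a * d ≤ (1 - a) ^ 2 * Real.exp (4 * a * d) := by
    have h1 : 1 - 2 * a + a * d ≤ (1 - a) ^ 2 * (1 + 4 * a * d) := by
      have h14 : (1 : ℝ) / 4 ≤ (1 - a) ^ 2 := by nlinarith
      have had : 0 ≤ a * d := by positivity
      nlinarith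
    refine h1.trans ?_
    gcongr
  have hpow : (1 - 2 * a + a * d) ^ m ≤ (1 - a) ^ (2 * m) * Real.exp (4 * n * a * d) := by
    calc (1 - 2 * a + a * d) ^ m ≤ ((1 - a) ^ 2 * Real.exp (4 * a * d)) ^ m :=
          pow_le_pow_left₀ hbase0 hbase m
      _ = (1 - a) ^ (2 * m) * Real.exp (m * (4 * a * d)) := by
          rw [mul_pow, ← pow_mul, ← Real.exp_nat_mul]
      _ ≤ (1 - a) ^ (2 * m) * Real.exp (4 * n * a * d) := by
          have h1a : 0 ≤ 1 - a := by linarith
          apply mul_le_mul_of_nonneg_left _ (by positivity)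
          apply Real.exp_le_exp.mpr
          have hmn : (m : ℝ) ≤ n := by exact_mod_cast (by omega : m ≤ n)
          have had : 0 ≤ a * d := by positivity
          nlinarith
  have h1a : 0 < 1 - a := by linarith
  have hpow2 : (1 - a) ^ (2 * m) ≤ ((1 - a) ^ (n - s)) ^ 2 * Real.exp (4 * a * j) := by
    have e1 : ((1 - a) ^ (n - s)) ^ 2 = (1 - a) ^ (2 * m) * (1 - a) ^ (2 * (j - i)) := by
      rw [← pow_mul, ← pow_add]
      congr 1
      omega
    have e2 : Real.exp (-(4 * a * j)) ≤ (1 - a) ^ (2 * (j - i)) := by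
      have h1 := one_sub_ge_exp ha0 ha
      calc Real.exp (-(4 * a * j)) ≤ Real.exp (-(2 * a) * (2 * (j - i) : ℕ)) := by
            apply Real.exp_le_exp.mpr
            have : ((2 * (j - i) : ℕ) : ℝ) ≤ 2 * j := by
              have : 2 * (j - i) ≤ 2 * j := by omega
              exact_mod_cast this
            nlinarith
        _ = (Real.exp (-(2 * a))) ^ (2 * (j - i)) := by
            rw [← Real.exp_nat_mul]; ring_nf
        _ ≤ (1 - a) ^ (2 * (j - i)) := pow_le_pow_left₀ (Real.exp_pos _).le h1 _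
    have e3 : 1 ≤ (1 - a) ^ (2 * (j - i)) * Real.exp (4 * a * j) := by
      have := mul_le_mul_of_nonneg_right e2 (Real.exp_pos (4 * a * j)).le
      rwa [← Real.exp_add, neg_add_cancel, Real.exp_zero] at this
    rw [e1]
    calc (1 - a) ^ (2 * m) = (1 - a) ^ (2 * m) * 1 := by ring
      _ ≤ (1 - a) ^ (2 * m) * ((1 - a) ^ (2 * (j - i)) * Real.exp (4 * a * j)) := by
          gcongr
      _ = _ := by ring
  calc (1 - 2 * a + a * d) ^ m ≤ (1 - a) ^ (2 * m) * Real.exp (4 * n * a * d) := hpow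
    _ ≤ (((1 - a) ^ (n - s)) ^ 2 * Real.exp (4 * a * j)) * Real.exp (4 * n * a * d) := by
        gcongr
    _ = _ := by ring

theorem first_moment (p : unitInterval) (T : Finset V) (j : ℕ) :
    ∑ G, gw p G * ((Fam G T j).card : ℝ) = mu (1 - (p : ℝ)) (Fintype.card V) T.card j := by
  classical
  have h1 : ∀ G : SimpleGraph V, ((Fam G T j).card : ℝ) =
      ∑ A ∈ powersetCard j Tᶜ, if IsDominating G (T ∪ A) then (1 : ℝ) else 0 := by
    intro G
    unfold Fam
    rw [card_filter]
    push_cast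
    rfl
  have h2 : ∑ G, gw p G * ((Fam G T j).card : ℝ) =
      ∑ A ∈ powersetCard j Tᶜ, ∑ G, gw p G * (if IsDominating G (T ∪ A) then (1 : ℝ) else 0) := by
    rw [sum_comm]
    apply sum_congr rfl
    intro G _
    rw [h1 G, mul_sum]
  rw [h2]
  have h3 : ∀ A ∈ powersetCard j Tᶜ,
      ∑ G, gw p G * (if IsDominating G (T ∪ A) then (1 : ℝ) else 0) =
      (1 - (1 - (p : ℝ)) ^ (T.card + j)) ^ (Fintype.card V - (T.card + j)) := by
    intro A hA
    rw [mem_powersetCard] at hA
    have hTA : Disjoint T A := by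
      rw [Finset.disjoint_right]
      intro x hx
      exact Finset.mem_compl.mp (hA.1 hx)
    have := prob_eq_sum p {G : SimpleGraph V | IsDominating G (T ∪ A)}
    simp only [Set.mem_ofPred_eq] at this
    rw [← this, prob_dom, card_union_of_disjoint hTA, hA.2]
  rw [sum_congr rfl h3, sum_const, card_powersetCard, nsmul_eq_mul, card_compl]
  rfl

theorem second_moment (p : unitInterval) (T : Finset V) (j : ℕ) (g : ℕ → ℝ) (hg : ∀ i, 0 ≤ g i)
    (hT : T.card < Fintype.card V)
    (ha : (1 - (p : ℝ)) ^ (T.card + j) ≤ 1 / 2) :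
    ∑ G, gw p G * (∑ A ∈ Fam G T j, ∑ A' ∈ Fam G T j, g (A ∩ A').card) ≤
      (mu (1 - (p : ℝ)) (Fintype.card V) T.card j) ^ 2 *
        (Real.exp (4 * (1 - (p : ℝ)) ^ (T.card + j) * j) *
        ∑ i ∈ range (j + 1), ((j : ℝ) ^ 2 / (Fintype.card V - T.card : ℕ)) ^ i *
          (g i * Real.exp (4 * Fintype.card V * (1 - (p : ℝ)) ^ (T.card + j) *
            (1 - (p : ℝ)) ^ (j - i)))) := by
  classical
  set q : ℝ := 1 - (p : ℝ) with hq
  set s := T.card + j with hs
  set n := Fintype.card V with hn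
  have h1 : ∀ G : SimpleGraph V, ∑ A ∈ Fam G T j, ∑ A' ∈ Fam G T j, g (A ∩ A').card =
      ∑ A ∈ powersetCard j Tᶜ, ∑ A' ∈ powersetCard j Tᶜ, g (A ∩ A').card *
        (if IsDominating G (T ∪ A) ∧ IsDominating G (T ∪ A') then (1 : ℝ) else 0) := by
    intro G
    unfold Fam
    rw [sum_filter]
    apply sum_congr rfl
    intro A _
    rw [sum_filter]
    by_cases hA : IsDominating G (T ∪ A)
    · rw [if_pos hA]
      apply sum_congr rfl
      intro A' _
      by_cases hA' : IsDominating G (T ∪ A')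
      · simp [hA, hA']
      · simp [hA, hA']
    · rw [if_neg hA]
      symm
      apply sum_eq_zero
      intro A' _
      simp [hA]
  have h2 : ∑ G, gw p G * (∑ A ∈ Fam G T j, ∑ A' ∈ Fam G T j, g (A ∩ A').card) =
      ∑ A ∈ powersetCard j Tᶜ, ∑ A' ∈ powersetCard j Tᶜ, g (A ∩ A').card *
        ∑ G, gw p G * (if IsDominating G (T ∪ A) ∧ IsDominating G (T ∪ A') then (1 : ℝ) else 0)
        := by
    simp_rw [h1, mul_sum]
    rw [sum_comm]
    apply sum_congr rfl
    intro A _
    rw [sum_comm]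
    apply sum_congr rfl
    intro A' _
    apply sum_congr rfl
    intro G _
    ring
  rw [h2]
  have h3 : ∀ A ∈ powersetCard j Tᶜ, ∀ A' ∈ powersetCard j Tᶜ, g (A ∩ A').card *
      ∑ G, gw p G * (if IsDominating G (T ∪ A) ∧ IsDominating G (T ∪ A') then (1 : ℝ) else 0) ≤
      (fun i => g i * (((1 - q ^ s) ^ (n - s)) ^ 2 * (Real.exp (4 * q ^ s * j) *
        Real.exp (4 * n * q ^ s * q ^ (j - i))))) (A ∩ A').card := by
    intro A hA A' hA'
    apply mul_le_mul_of_nonneg_left _ (hg _)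
    have := prob_eq_sum p {G : SimpleGraph V | IsDominating G (T ∪ A) ∧ IsDominating G (T ∪ A')}
    simp only [Set.mem_ofPred_eq] at this
    rw [← this]
    exact pair_prob p T A A' j hA hA' ha
  refine (sum_le_sum (fun A hA => sum_le_sum (fun A' hA' => h3 A hA A' hA'))).trans ?_
  have hq0 : 0 ≤ q := by have := p.2.2; rw [hq]; linarith
  have h4 := sum_inter_le Tᶜ j (by rw [card_compl]; omega)
    (fun i => g i * (((1 - q ^ s) ^ (n - s)) ^ 2 * (Real.exp (4 * q ^ s * j) *
        Real.exp (4 * n * q ^ s * q ^ (j - i))))) (fun i => by have := hg i; positivity)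
  refine h4.trans (le_of_eq ?_)
  rw [card_compl, ← hn]
  unfold mu
  rw [← hs, mul_sum, mul_sum, mul_sum]
  apply sum_congr rfl
  intro i _
  ring

end Pool.Agent.Work.MP_dfc2f8_pr
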