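import Pool.Agent.Work.MP_dfc2f8_pr.Second
import Pool.Agent.Work.MP_dfc2f8_pr.Phase

/-!
# The size game: a deterministic sufficient condition
-/

namespace Pool.Agent.Work.MP_dfc2f8_pr

open Finset MeasureTheory ProbabilityTheory SimpleGraph

universe u
variable {V : Type u} [DecidableEq V] [Fintype V]

/-- the goal in the size game -/
def SGoal (G : SimpleGraph V) (s : ℕ) (D : Finset V) : Prop :=
  ∃ D' ⊆ D, D'.card ≤ s ∧ IsDominating G D'

lemma sum_deg_sq (H : Finset (Finset V)) :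
    ∑ y : V, (((H.filter (fun A => y ∈ A)).card : ℝ)) ^ 2 =
      ∑ A ∈ H, ∑ A' ∈ H, ((A ∩ A').card : ℝ) := by
  classical
  have h1 : ∀ y : V, (((H.filter (fun A => y ∈ A)).card : ℝ)) ^ 2 =
      ∑ A ∈ H, ∑ A' ∈ H, (if y ∈ A ∩ A' then (1 : ℝ) else 0) := by
    intro y
    have h2 : ((H.filter (fun A => y ∈ A)).card : ℝ) = ∑ A ∈ H, if y ∈ A then (1 : ℝ) else 0 := by
      rw [card_filter]; push_cast; rfl
    rw [h2, sq, sum_mul_sum]
    apply sum_congr rfl
    intro A _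
    apply sum_congr rfl
    intro A' _
    by_cases a : y ∈ A <;> by_cases c : y ∈ A' <;> simp [a, c]
  simp_rw [h1]
  rw [sum_comm]
  apply sum_congr rfl
  intro A _
  rw [sum_comm]
  apply sum_congr rfl
  intro A' _
  rw [← sum_filter, sum_const, nsmul_eq_mul, mul_one]
  congr 2
  ext y; simp

omit [Fintype V] in
lemma Zs_le (H : Finset (Finset V)) (U : Finset V) :
    Zs H U ≤ ∑ A ∈ H, ∑ A' ∈ H, (((A ∩ A').card * (A ∩ A').card - (A ∩ A').card : ℕ) : ℝ) := by
  classical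
  unfold Zs
  have h1 : ∀ z : V × V, (pd H z.1 z.2) ^ 2 =
      ∑ A ∈ H, ∑ A' ∈ H, (if z.1 ∈ A ∩ A' ∧ z.2 ∈ A ∩ A' then (1 : ℝ) else 0) := by
    intro z
    have h2 : pd H z.1 z.2 = ∑ A ∈ H, if (z.1 ∈ A ∧ z.2 ∈ A) then (1 : ℝ) else 0 := by
      unfold pd
      rw [card_filter]; push_cast; rfl
    rw [h2, sq, sum_mul_sum]
    apply sum_congr rfl
    intro A _
    apply sum_congr rfl
    intro A' _
    by_cases a : z.1 ∈ A <;> by_cases c : z.1 ∈ A' <;> by_cases a2 : z.2 ∈ A <;>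
      by_cases c2 : z.2 ∈ A' <;> simp [a, c, a2, c2]
  simp_rw [h1]
  rw [sum_comm]
  apply sum_le_sum
  intro A _
  rw [sum_comm]
  apply sum_le_sum
  intro A' _
  rw [← sum_filter, sum_const, nsmul_eq_mul, mul_one, ← offDiag_card]
  norm_cast
  apply card_le_card
  intro z hz
  rw [mem_filter, mem_offDiag] at hz
  rw [mem_offDiag]
  exact ⟨hz.2.1, hz.2.2, hz.1.2.2⟩

/-- sum over pairs of members of the family of the size of the intersection -/
noncomputable def M1 (T : Finset V) (j : ℕ) (G : SimpleGraph V) : ℝ :=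
  ∑ A ∈ Fam G T j, ∑ A' ∈ Fam G T j, ((A ∩ A').card : ℝ)

/-- sum over pairs of members of the family of `i² - i`, `i` the size of the intersection -/
noncomputable def M2 (T : Finset V) (j : ℕ) (G : SimpleGraph V) : ℝ :=
  ∑ A ∈ Fam G T j, ∑ A' ∈ Fam G T j,
    (((A ∩ A').card * (A ∩ A').card - (A ∩ A').card : ℕ) : ℝ)

lemma M1_nonneg (T : Finset V) (j : ℕ) (G : SimpleGraph V) : 0 ≤ M1 T j G := by
  unfold M1; positivity

lemma M2_nonneg (T : Finset V) (j : ℕ) (G : SimpleGraph V) : 0 ≤ M2 T j G := by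
  unfold M2; positivity

/-- the good event for a graph and a start set `T` -/
def GoodG (α β μ : ℝ) (j : ℕ) (G : SimpleGraph V) (T : Finset V) : Prop :=
  μ / 2 ≤ ((Fam G T j).card : ℝ) ∧ M1 T j G ≤ α * μ ^ 2 ∧ M2 T j G ≤ β * μ ^ 2

theorem size_force {G : SimpleGraph V} {T S : Finset V} {b j : ℕ} {α β μ l₁ l₂ : ℝ} {σ : ℕ}
    (hμ : 0 < μ) (hl₁ : 0 < l₁) (hl₂ : 0 < l₂) (hTS : Disjoint T S) (hS : S.card ≤ σ)
    (hgood : GoodG α β μ j G T)
    (hα : l₁ * σ + α / l₁ ≤ 1 / 4)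
    (hβ : l₂ * Fintype.card V + β / l₂ < ((1 + (b : ℝ))⁻¹) ^ j / 4) :
    Forces b (SGoal G (T.card + j)) (Fintype.card V) T S := by
  classical
  set H := Fam G T j with hH
  obtain ⟨hg1, hg2, hg3⟩ := hgood
  have hHmem : ∀ A ∈ H, A.card = j ∧ Disjoint T A ∧ IsDominating G (T ∪ A) := by
    intro A hA
    rw [hH] at hA
    unfold Fam at hA
    rw [mem_filter, mem_powersetCard] at hA
    refine ⟨hA.1.2, ?_, hA.2⟩
    rw [Finset.disjoint_right]
    intro x hx
    exact Finset.mem_compl.mp (hA.1.1 hx)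
  -- number of sets hitting `S`
  have hhit : ((H.filter (fun A => ¬ Disjoint A S)).card : ℝ) ≤ μ / 4 := by
    have h1 : ((H.filter (fun A => ¬ Disjoint A S)).card : ℝ) ≤
        ∑ y ∈ S, ((H.filter (fun A => y ∈ A)).card : ℝ) := by
      have : (H.filter (fun A => ¬ Disjoint A S)).card ≤
          ∑ y ∈ S, (H.filter (fun A => y ∈ A)).card := by
        refine (card_le_card ?_).trans card_biUnion_le
        intro A hA
        rw [mem_filter, Finset.not_disjoint_iff] at hA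
        obtain ⟨hAH, y, hyA, hyS⟩ := hA
        rw [mem_biUnion]
        exact ⟨y, hyS, mem_filter.mpr ⟨hAH, hyA⟩⟩
      exact_mod_cast this
    have h2 : ∀ y ∈ S, ((H.filter (fun A => y ∈ A)).card : ℝ) ≤
        μ * l₁ + ((H.filter (fun A => y ∈ A)).card : ℝ) ^ 2 / (μ * l₁) := by
      intro y _
      have hpos : 0 < μ * l₁ := by positivity
      set x := ((H.filter (fun A => y ∈ A)).card : ℝ) with hx
      have hx0 : 0 ≤ x := by positivity
      rcases le_total x (μ * l₁) with h | h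
      · have : 0 ≤ x ^ 2 / (μ * l₁) := by positivity
        linarith
      · have : x ≤ x ^ 2 / (μ * l₁) := by
          rw [le_div_iff₀ hpos]; nlinarith
        linarith
    have h3 : ∑ y ∈ S, ((H.filter (fun A => y ∈ A)).card : ℝ) ^ 2 ≤ α * μ ^ 2 := by
      refine le_trans ?_ hg2
      have hM1 : M1 T j G = ∑ y : V, (((H.filter (fun A => y ∈ A)).card : ℝ)) ^ 2 := by
        rw [sum_deg_sq]; rfl
      rw [hM1]
      exact sum_le_sum_of_subset_of_nonneg (subset_univ S) (fun _ _ _ => by positivity)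
    have hScard : (S.card : ℝ) ≤ σ := by exact_mod_cast hS
    have hml : 0 < μ * l₁ := by positivity
    calc ((H.filter (fun A => ¬ Disjoint A S)).card : ℝ)
        ≤ ∑ y ∈ S, ((H.filter (fun A => y ∈ A)).card : ℝ) := h1
      _ ≤ ∑ y ∈ S, (μ * l₁ + ((H.filter (fun A => y ∈ A)).card : ℝ) ^ 2 / (μ * l₁)) :=
          sum_le_sum h2
      _ = S.card * (μ * l₁) + (∑ y ∈ S, ((H.filter (fun A => y ∈ A)).card : ℝ) ^ 2) / (μ * l₁) := by
          rw [sum_add_distrib, sum_const, nsmul_eq_mul, sum_div]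
      _ ≤ σ * (μ * l₁) + (α * μ ^ 2) / (μ * l₁) := by gcongr
      _ = μ * (l₁ * σ + α / l₁) := by field_simp
      _ ≤ μ * (1 / 4) := by gcongr
      _ = μ / 4 := by ring
  have hPh : ((1 + (b : ℝ))⁻¹) ^ j * (μ / 4) ≤ Ph b H T S := by
    have h1 : Ph b H T S = ((1 + (b : ℝ))⁻¹) ^ j * ((H.filter (fun A => Disjoint A S)).card : ℝ) := by
      unfold Ph
      rw [mul_comm, ← nsmul_eq_mul, ← sum_const]
      apply sum_congr rfl
      intro A hA
      rw [mem_filter] at hA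
      have := hHmem A hA.1
      unfold wt
      rw [sdiff_eq_self_of_disjoint this.2.1.symm, this.1]
    rw [h1]
    have h2 := card_filter_add_card_filter_not (s := H) (fun A => Disjoint A S)
    have h3 : ((H.filter (fun A => Disjoint A S)).card : ℝ) +
        ((H.filter (fun A => ¬ Disjoint A S)).card : ℝ) = H.card := by exact_mod_cast h2
    apply mul_le_mul_of_nonneg_left _ (by positivity)
    linarith
  have hbeck := beck b H (μ * l₂) (by positivity) ((T ∪ S)ᶜ).card T S hTS rfl (by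
    refine lt_of_lt_of_le ?_ hPh
    have hc : (((T ∪ S)ᶜ).card : ℝ) ≤ Fintype.card V := by exact_mod_cast card_le_univ _
    have hZ : Zs H ((T ∪ S)ᶜ) ≤ β * μ ^ 2 := (Zs_le H _).trans hg3
    have hml : 0 < μ * l₂ := by positivity
    calc μ * l₂ * (((T ∪ S)ᶜ).card : ℝ) + Zs H ((T ∪ S)ᶜ) / (μ * l₂)
        ≤ μ * l₂ * Fintype.card V + β * μ ^ 2 / (μ * l₂) := by gcongr
      _ = μ * (l₂ * Fintype.card V + β / l₂) := by field_simp
      _ < μ * (((1 + (b : ℝ))⁻¹) ^ j / 4) := by gcongr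
      _ = ((1 + (b : ℝ))⁻¹) ^ j * (μ / 4) := by ring)
  have h1 := Forces.mono_time (card_le_univ ((T ∪ S)ᶜ)) hbeck
  refine Forces.mono_goal ?_ h1
  rintro D' hTD' ⟨A, hA, hAD'⟩
  have := hHmem A hA
  refine ⟨T ∪ A, union_subset hTD' hAD', ?_, this.2.2⟩
  rw [card_union_of_disjoint this.2.1, this.1]

end Pool.Agent.Work.MP_dfc2f8_pr
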