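import Pool.Agent.Work.MP_dfc2f8_pr.Size

/-!
# The size game: probability of the sufficient condition
-/

namespace Pool.Agent.Work.MP_dfc2f8_pr

open Finset MeasureTheory ProbabilityTheory SimpleGraph

universe u
variable {V : Type u} [DecidableEq V] [Fintype V]

lemma cheb (p : unitInterval) (T : Finset V) (j : ℕ) (M₀ : ℝ)
    (hμ : 0 < mu (1 - (p : ℝ)) (Fintype.card V) T.card j)
    (hsec : ∑ G, gw p G * (∑ _A ∈ Fam G T j, ∑ _A' ∈ Fam G T j, (1 : ℝ)) ≤
      (mu (1 - (p : ℝ)) (Fintype.card V) T.card j) ^ 2 * M₀) :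
    (binomialRandom V p).real {G | ((Fam G T j).card : ℝ) <
      mu (1 - (p : ℝ)) (Fintype.card V) T.card j / 2} ≤ 4 * (M₀ - 1) := by
  set μ := mu (1 - (p : ℝ)) (Fintype.card V) T.card j with hμd
  have h1 := markov p (fun G => (((Fam G T j).card : ℝ) - μ) ^ 2) (fun G => by positivity)
    (μ ^ 2 / 4) (by positivity) {G | ((Fam G T j).card : ℝ) < μ / 2} (by
      intro G hG
      rw [Set.mem_ofPred_eq] at hG
      have : 0 ≤ ((Fam G T j).card : ℝ) := by positivity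
      nlinarith)
  refine h1.trans ?_
  have h2 : ∑ G, gw p G * (((Fam G T j).card : ℝ) - μ) ^ 2 =
      ∑ G, gw p G * (∑ _A ∈ Fam G T j, ∑ _A' ∈ Fam G T j, (1 : ℝ)) - μ ^ 2 := by
    have e1 : ∀ G : SimpleGraph V, gw p G * (((Fam G T j).card : ℝ) - μ) ^ 2 =
        gw p G * (∑ _A ∈ Fam G T j, ∑ _A' ∈ Fam G T j, (1 : ℝ)) -
          2 * μ * (gw p G * ((Fam G T j).card : ℝ)) + μ ^ 2 * gw p G := by
      intro G
      simp only [sum_const, nsmul_eq_mul, mul_one]
      ring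
    rw [sum_congr rfl (fun G _ => e1 G), sum_add_distrib, sum_sub_distrib, ← mul_sum, ← mul_sum,
      first_moment, gw_sum]
    ring
  rw [h2, div_le_iff₀ (by positivity)]
  nlinarith

/-- bound on the terms of the second moment sums -/
lemma term_bound {q a y x B C : ℝ} {n j k0 : ℕ} (hq0 : 0 ≤ q) (hq1 : q ≤ 1) (ha0 : 0 ≤ a)
    (hy0 : 0 ≤ y) (hx : y ≤ x) (hx1 : x ≤ 1) (hk0 : 2 ≤ k0) (hk : 2 * k0 ≤ j)
    (hB : Real.exp (4 * n * a * q ^ k0) ≤ B) (hC : x ^ k0 * Real.exp (4 * n * a) ≤ C)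
    {i : ℕ} (hi : i ≤ j) {m : ℕ} (hmi : m ≤ i) (hm2 : m ≤ 2) :
    y ^ i * Real.exp (4 * n * a * q ^ (j - i)) ≤ x ^ m * B + C := by
  have hx0 : 0 ≤ x := hy0.trans hx
  have hB0 : 0 < B := (Real.exp_pos _).trans_le hB
  have hC0 : 0 ≤ C := le_trans (by positivity) hC
  have hyi : y ^ i ≤ x ^ i := pow_le_pow_left₀ hy0 hx i
  by_cases hik : i ≤ k0
  · have hxi : x ^ i ≤ x ^ m := pow_le_pow_of_le_one hx0 hx1 hmi
    have hqi : q ^ (j - i) ≤ q ^ k0 := pow_le_pow_of_le_one hq0 hq1 (by omega)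
    have hexp : Real.exp (4 * n * a * q ^ (j - i)) ≤ B := by
      refine le_trans (Real.exp_le_exp.mpr ?_) hB
      gcongr
    have : y ^ i * Real.exp (4 * n * a * q ^ (j - i)) ≤ x ^ m * B :=
      mul_le_mul (hyi.trans hxi) hexp (Real.exp_pos _).le (by positivity)
    linarith
  · have hxi : x ^ i ≤ x ^ k0 := pow_le_pow_of_le_one hx0 hx1 (by omega)
    have hqi : q ^ (j - i) ≤ 1 := pow_le_one₀ hq0 hq1
    have hexp : Real.exp (4 * n * a * q ^ (j - i)) ≤ Real.exp (4 * n * a) := by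
      apply Real.exp_le_exp.mpr
      have : 0 ≤ 4 * (n : ℝ) * a := by positivity
      nlinarith
    have h1 : y ^ i * Real.exp (4 * n * a * q ^ (j - i)) ≤ x ^ k0 * Real.exp (4 * n * a) :=
      mul_le_mul (hyi.trans hxi) hexp (Real.exp_pos _).le (by positivity)
    have h2 : 0 ≤ x ^ m * B := by positivity
    linarith

/-- bound on the second moment sums -/
lemma sum_bound {q a y x B C : ℝ} {n j k0 : ℕ} (hq0 : 0 ≤ q) (hq1 : q ≤ 1) (ha0 : 0 ≤ a)
    (hy0 : 0 ≤ y) (hx : y ≤ x) (hx1 : x ≤ 1) (hk0 : 2 ≤ k0) (hk : 2 * k0 ≤ j)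
    (hB : Real.exp (4 * n * a * q ^ k0) ≤ B) (hC : x ^ k0 * Real.exp (4 * n * a) ≤ C)
    (g : ℕ → ℝ) (m : ℕ) (hm : m ≤ 2) (K : ℝ) (hg : ∀ i ≤ j, g i ≤ K) (hK : 0 ≤ K)
    (hgm : ∀ i < m, g i ≤ 0) (hg0 : g 0 = 0) :
    ∑ i ∈ range (j + 1), y ^ i * (g i * Real.exp (4 * n * a * q ^ (j - i))) ≤
      j * (K * (x ^ m * B + C)) := by
  have hx0 : 0 ≤ x := hy0.trans hx
  have hB0 : 0 < B := (Real.exp_pos _).trans_le hB
  have hC0 : 0 ≤ C := le_trans (by positivity) hC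
  rw [sum_range_succ', hg0]
  simp only [zero_mul, mul_zero, add_zero]
  have h1 : ∑ i ∈ range j, y ^ (i + 1) * (g (i + 1) *
      Real.exp (4 * n * a * q ^ (j - (i + 1)))) ≤
      ∑ _i ∈ range j, K * (x ^ m * B + C) := by
    apply sum_le_sum
    intro i hi
    rw [mem_range] at hi
    by_cases him : i + 1 < m
    · have h2 := hgm (i + 1) him
      have h3 : 0 ≤ y ^ (i + 1) * Real.exp (4 * n * a * q ^ (j - (i + 1))) := by positivity
      have h4 : 0 ≤ K * (x ^ m * B + C) := by positivity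
      nlinarith
    · have h2 := term_bound hq0 hq1 ha0 hy0 hx hx1 hk0 hk hB hC (i := i + 1) (by omega)
        (m := m) (by omega) hm
      have h3 := hg (i + 1) (by omega)
      have h4 : 0 ≤ y ^ (i + 1) * Real.exp (4 * n * a * q ^ (j - (i + 1))) := by positivity
      calc y ^ (i + 1) * (g (i + 1) * Real.exp (4 * n * a * q ^ (j - (i + 1))))
          = g (i + 1) * (y ^ (i + 1) * Real.exp (4 * n * a * q ^ (j - (i + 1)))) := by ring
        _ ≤ K * (y ^ (i + 1) * Real.exp (4 * n * a * q ^ (j - (i + 1)))) :=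
            mul_le_mul_of_nonneg_right h3 h4
        _ ≤ K * (x ^ m * B + C) := mul_le_mul_of_nonneg_left h2 hK
  refine h1.trans (le_of_eq ?_)
  rw [sum_const, card_range, nsmul_eq_mul]

theorem prob_bad (p : unitInterval) (T : Finset V) (j k0 : ℕ) (x B C e α β : ℝ)
    (hT : T.card < Fintype.card V)
    (ha : (1 - (p : ℝ)) ^ (T.card + j) ≤ 1 / 2)
    (hμ : 0 < mu (1 - (p : ℝ)) (Fintype.card V) T.card j)
    (hk0 : 2 ≤ k0) (hk : 2 * k0 ≤ j) (hx1 : x ≤ 1)
    (hx : (j : ℝ) ^ 2 / (Fintype.card V - T.card : ℕ) ≤ x)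
    (hB : Real.exp (4 * Fintype.card V * (1 - (p : ℝ)) ^ (T.card + j) * (1 - (p : ℝ)) ^ k0) ≤ B)
    (hC : x ^ k0 * Real.exp (4 * Fintype.card V * (1 - (p : ℝ)) ^ (T.card + j)) ≤ C)
    (he : Real.exp (4 * (1 - (p : ℝ)) ^ (T.card + j) * j) ≤ e) (hα : 0 < α) (hβ : 0 < β) :
    (binomialRandom V p).real {G | ¬ GoodG α β (mu (1 - (p : ℝ)) (Fintype.card V) T.card j) j G T} ≤
      4 * (e * (B + j * (x * B + C)) - 1) + e * (j ^ 2 * (x * B + C)) / α +
        e * (j ^ 3 * (x ^ 2 * B + C)) / β := by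
  classical
  have m0 := second_moment p T j (fun _ => (1 : ℝ)) (fun _ => zero_le_one) hT ha
  have m1 := second_moment p T j (fun i : ℕ => (i : ℝ)) (fun i => Nat.cast_nonneg i) hT ha
  have m2 := second_moment p T j (fun i : ℕ => ((i * i - i : ℕ) : ℝ))
    (fun i => Nat.cast_nonneg _) hT ha
  have hq0 : 0 ≤ 1 - (p : ℝ) := by have := p.2.2; linarith
  have hq1 : 1 - (p : ℝ) ≤ 1 := by have := p.2.1; linarith
  have ha0 : 0 ≤ (1 - (p : ℝ)) ^ (T.card + j) := by positivity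
  generalize hμd : mu (1 - (p : ℝ)) (Fintype.card V) T.card j = μ at *
  generalize hy : (j : ℝ) ^ 2 / (Fintype.card V - T.card : ℕ) = y at *
  generalize hadef : (1 - (p : ℝ)) ^ (T.card + j) = a at *
  have hy0 : 0 ≤ y := by rw [← hy]; positivity
  have hx0 : 0 ≤ x := hy0.trans hx
  have hB0 : 0 < B := (Real.exp_pos _).trans_le hB
  have hC0 : 0 ≤ C := le_trans (by positivity) hC
  have he0 : 0 < e := (Real.exp_pos _).trans_le he
  have hj0 : (0 : ℝ) ≤ j := by positivity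
  have hS0 : ∑ i ∈ range (j + 1), y ^ i * ((1 : ℝ) *
      Real.exp (4 * Fintype.card V * a * (1 - (p : ℝ)) ^ (j - i))) ≤ B + j * (x * B + C) := by
    rw [sum_range_succ']
    have h0 : y ^ 0 * (1 * Real.exp (4 * Fintype.card V * a * (1 - (p : ℝ)) ^ (j - 0))) ≤ B := by
      rw [pow_zero, one_mul, one_mul, Nat.sub_zero]
      refine le_trans (Real.exp_le_exp.mpr ?_) hB
      have hqi : (1 - (p : ℝ)) ^ j ≤ (1 - (p : ℝ)) ^ k0 :=
        pow_le_pow_of_le_one hq0 hq1 (by omega)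
      gcongr
    have h1 : ∑ i ∈ range j, y ^ (i + 1) * (1 *
        Real.exp (4 * Fintype.card V * a * (1 - (p : ℝ)) ^ (j - (i + 1)))) ≤
        ∑ _i ∈ range j, (x * B + C) := by
      apply sum_le_sum
      intro i hi
      rw [mem_range] at hi
      have := term_bound hq0 hq1 ha0 hy0 hx hx1 hk0 hk hB hC (i := i + 1) (by omega)
        (m := 1) (by omega) (by omega)
      rwa [pow_one, ← one_mul (Real.exp _)] at this
    rw [sum_const, card_range, nsmul_eq_mul] at h1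
    linarith
  have hS1 := sum_bound hq0 hq1 ha0 hy0 hx hx1 hk0 hk hB hC (fun i : ℕ => (i : ℝ)) 1
    (by norm_num) (j : ℝ) (fun i hi => by exact_mod_cast hi) hj0
    (fun i hi => by have : i = 0 := by omega
                    subst this; simp) (by simp)
  have hS2 := sum_bound hq0 hq1 ha0 hy0 hx hx1 hk0 hk hB hC
    (fun i : ℕ => ((i * i - i : ℕ) : ℝ)) 2
    (by norm_num) ((j : ℝ) ^ 2) (fun i hi => by
      have : i * i - i ≤ j ^ 2 := by
        have : i * i ≤ j ^ 2 := by nlinarith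
        omega
      show ((i * i - i : ℕ) : ℝ) ≤ (j : ℝ) ^ 2
      exact_mod_cast this) (by positivity)
    (fun i hi => by
      have : i * i - i = 0 := by interval_cases i <;> rfl
      show ((i * i - i : ℕ) : ℝ) ≤ 0
      rw [this]; simp) (by simp)
  have m0' : ∑ G, gw p G * (∑ _A ∈ Fam G T j, ∑ _A' ∈ Fam G T j, (1 : ℝ)) ≤
      μ ^ 2 * (e * (B + j * (x * B + C))) := by
    refine m0.trans ?_
    refine mul_le_mul_of_nonneg_left ?_ (sq_nonneg μ)
    exact mul_le_mul he hS0 (sum_nonneg (fun i _ => by positivity)) he0.le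
  have m1' : ∑ G, gw p G * M1 T j G ≤ μ ^ 2 * (e * (j ^ 2 * (x * B + C))) := by
    refine m1.trans ?_
    refine mul_le_mul_of_nonneg_left ?_ (sq_nonneg μ)
    refine (mul_le_mul he hS1 (sum_nonneg (fun i _ => by positivity)) he0.le).trans
      (le_of_eq ?_)
    ring
  have m2' : ∑ G, gw p G * M2 T j G ≤ μ ^ 2 * (e * (j ^ 3 * (x ^ 2 * B + C))) := by
    refine m2.trans ?_
    refine mul_le_mul_of_nonneg_left ?_ (sq_nonneg μ)
    refine (mul_le_mul he hS2 (sum_nonneg (fun i _ => by positivity)) he0.le).trans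
      (le_of_eq ?_)
    ring
  have p0 : (binomialRandom V p).real {G | ((Fam G T j).card : ℝ) < μ / 2} ≤
      4 * (e * (B + j * (x * B + C)) - 1) := by
    have := cheb p T j (e * (B + j * (x * B + C))) (by rw [hμd]; exact hμ) (by rw [hμd]; exact m0')
    rwa [hμd] at this
  have p1 := markov p (M1 T j) (M1_nonneg T j) (α * μ ^ 2) (by positivity)
    {G | α * μ ^ 2 < M1 T j G} (fun G hG => le_of_lt hG)
  have p2 := markov p (M2 T j) (M2_nonneg T j) (β * μ ^ 2) (by positivity)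
    {G | β * μ ^ 2 < M2 T j G} (fun G hG => le_of_lt hG)
  have p1' : (∑ G, gw p G * M1 T j G) / (α * μ ^ 2) ≤ e * (j ^ 2 * (x * B + C)) / α := by
    rw [div_le_div_iff₀ (by positivity) hα]
    calc (∑ G, gw p G * M1 T j G) * α
        ≤ (μ ^ 2 * (e * (j ^ 2 * (x * B + C)))) * α := mul_le_mul_of_nonneg_right m1' hα.le
      _ = _ := by ring
  have p2' : (∑ G, gw p G * M2 T j G) / (β * μ ^ 2) ≤ e * (j ^ 3 * (x ^ 2 * B + C)) / β := by
    rw [div_le_div_iff₀ (by positivity) hβ]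
    calc (∑ G, gw p G * M2 T j G) * β
        ≤ (μ ^ 2 * (e * (j ^ 3 * (x ^ 2 * B + C)))) * β := mul_le_mul_of_nonneg_right m2' hβ.le
      _ = _ := by ring
  have hsub : {G : SimpleGraph V | ¬ GoodG α β μ j G T} ⊆
      ({G | ((Fam G T j).card : ℝ) < μ / 2} ∪ {G | α * μ ^ 2 < M1 T j G}) ∪
        {G | β * μ ^ 2 < M2 T j G} := by
    intro G hG
    rw [Set.mem_ofPred_eq] at hG
    unfold GoodG at hG
    by_contra hcon
    simp only [Set.mem_union, Set.mem_ofPred_eq, not_or, not_lt] at hcon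
    exact hG ⟨hcon.1.1, hcon.1.2, hcon.2⟩
  refine (measureReal_mono hsub (measure_ne_top _ _)).trans ?_
  refine (measureReal_union_le _ _).trans ?_
  refine add_le_add ((measureReal_union_le _ _).trans (add_le_add p0 (p1.trans p1')))
    (p2.trans p2')

end Pool.Agent.Work.MP_dfc2f8_pr
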