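import Pool.Agent.Work.MP_dfc2f8_pr.Bern

/-!
# The time game: first moment bound
-/

namespace Pool.Agent.Work.MP_dfc2f8_pr

open Finset MeasureTheory ProbabilityTheory SimpleGraph

universe u
variable {V : Type u} [DecidableEq V]

/-- the goal in the time game -/
def TGoal (G : SimpleGraph V) (D : Finset V) : Prop := ∃ D' ⊆ D, IsDominating G D'

omit [DecidableEq V] in
lemma IsDominating.mono {G : SimpleGraph V} {D D' : Finset V} (h : IsDominating G D)
    (hs : D ⊆ D') : IsDominating G D' := by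
  intro x hx
  obtain ⟨v, hv, hadj⟩ := h x (fun hxD => hx (hs hxD))
  exact ⟨v, hs hv, hadj⟩

lemma gammaMB_le_iff (G : SimpleGraph V) (b t : ℕ) :
    gammaMB G b ≤ t ↔ Forces b (TGoal G) t ∅ ∅ := by
  constructor
  · intro h
    unfold gammaMB at h
    set S := {x : ℕ∞ | ∃ t : ℕ, x = t ∧ Forces b (fun D => ∃ D' ⊆ D, IsDominating G D') t ∅ ∅}
      with hS
    have hne : S.Nonempty := by
      by_contra hcon
      rw [Set.not_nonempty_iff_eq_empty] at hcon
      rw [hcon, sInf_empty] at h
      exact absurd h (by simp)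
    obtain ⟨t', h1, h2⟩ := csInf_mem hne
    rw [h1] at h
    have h3 : t' ≤ t := by exact_mod_cast h
    exact Forces.mono_time h3 h2
  · intro h
    exact sInf_le ⟨t, rfl, h⟩

lemma sMB_le_of (G : SimpleGraph V) (b s t : ℕ)
    (h : Forces b (fun D => ∃ D' ⊆ D, D'.card ≤ s ∧ IsDominating G D') t ∅ ∅) :
    sMB G b ≤ s := sInf_le ⟨s, rfl, t, h⟩

variable [Fintype V]

theorem time_bound (p : unitInterval) (b i j : ℕ)
    (hn : i + 1 + (b + 1) * j < Fintype.card V) :
    (binomialRandom V p).real {G | gammaMB G b ≤ ((i + 1 + j : ℕ) : ℕ∞)} ≤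
      (Fintype.card V : ℝ) ^ (i + 1) * ((Fintype.card V : ℝ) ^ (Nj b j) *
        (1 - (1 - (p : ℝ)) ^ (i + 1) * (1 - (p : ℝ) ^ (b + 1)) ^ j) ^
          (Fintype.card V - (i + 1) - Nj b j)) := by
  classical
  have hp0 : (0 : ℝ) ≤ p := p.2.1
  have hp1 : (p : ℝ) ≤ 1 := p.2.2
  set n := Fintype.card V with hnn
  set c : ℝ := 1 - (1 - (p : ℝ)) ^ (i + 1) * (1 - (p : ℝ) ^ (b + 1)) ^ j with hc
  have hc0 : 0 ≤ c := by
    have h1 : (1 - (p : ℝ)) ^ (i + 1) ≤ 1 := pow_le_one₀ (by linarith) (by linarith)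
    have h2 : (p : ℝ) ^ (b + 1) ≤ 1 := pow_le_one₀ hp0 hp1
    have h2' : 0 ≤ (p : ℝ) ^ (b + 1) := by positivity
    have h3 : (1 - (p : ℝ) ^ (b + 1)) ^ j ≤ 1 := pow_le_one₀ (by linarith) (by linarith)
    have h4 : 0 ≤ (1 - (p : ℝ)) ^ (i + 1) := pow_nonneg (by linarith) _
    have h5 : 0 ≤ (1 - (p : ℝ) ^ (b + 1)) ^ j := pow_nonneg (by linarith) _
    rw [hc]; nlinarith
  have hc1 : c ≤ 1 := by
    have h2 : (p : ℝ) ^ (b + 1) ≤ 1 := pow_le_one₀ hp0 hp1
    have h4 : 0 ≤ (1 - (p : ℝ)) ^ (i + 1) := pow_nonneg (by linarith) _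
    have h5 : 0 ≤ (1 - (p : ℝ) ^ (b + 1)) ^ j := pow_nonneg (by linarith) _
    rw [hc]; nlinarith
  have hsub : {G : SimpleGraph V | gammaMB G b ≤ ((i + 1 + j : ℕ) : ℕ∞)} ⊆
      ⋃ D ∈ powersetCard (i + 1) (univ : Finset V),
        ⋃ f ∈ (univ : Finset (LTree V b j)).filter (fun f => GoodT b j f D),
          {G : SimpleGraph V | AllDom G b j f D} := by
    intro G hG
    rw [Set.mem_ofPred_eq, gammaMB_le_iff] at hG
    have hmono : ∀ D v, TGoal G D → TGoal G (insert v D) := by
      rintro D v ⟨D', h1, h2⟩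
      exact ⟨D', h1.trans (subset_insert _ _), h2⟩
    obtain ⟨D, hD1, hD2⟩ := first_moves hmono j i ∅ (by simp; omega) hG
    obtain ⟨f, hf1, hf2⟩ := extract (G := G) (b := b) (Goal := TGoal G)
      (fun D h => by obtain ⟨D', h1, h2⟩ := h; exact h2.mono h1) hmono j D ∅
      (by rw [hD1]; simp; omega) hD2
    rw [union_empty] at hf1
    simp only [Set.mem_iUnion, exists_prop]
    refine ⟨D, ?_, f, ?_, hf2⟩
    · rw [mem_powersetCard]
      exact ⟨subset_univ _, by rw [hD1]; simp⟩
    · rw [mem_filter]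
      exact ⟨mem_univ _, hf1⟩
  have hone : ∀ D ∈ powersetCard (i + 1) (univ : Finset V),
      ∀ f ∈ (univ : Finset (LTree V b j)).filter (fun f => GoodT b j f D),
      (binomialRandom V p).real {G : SimpleGraph V | AllDom G b j f D} ≤
        c ^ (n - (i + 1) - Nj b j) := by
    intro D hD f hf
    rw [mem_powersetCard] at hD
    rw [mem_filter] at hf
    set W := D ∪ labels b j f with hW
    have h1 : (binomialRandom V p).real {G : SimpleGraph V | AllDom G b j f D} ≤
        (binomialRandom V p).real {G | ∀ x ∈ Wᶜ, OKs b j f D (nb G W x)} := by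
      apply measureReal_mono _ (measure_ne_top _ _)
      intro G hG x hx
      exact OKs_of_AllDom b j f D W subset_union_left subset_union_right hG x
        (Finset.mem_compl.mp hx) (nb G W x) (fun y hy hadj => mem_nb.mpr ⟨hy, hadj⟩)
    refine h1.trans ?_
    rw [prob_star p W (fun _ => OKs b j f D), prod_const]
    have hb := bern_OKs_le hp0 hp1 b j f D W hf.2 subset_union_left subset_union_right
    rw [hD.2, ← hc] at hb
    have hb0 := bern_nonneg hp0 hp1 W (OKs b j f D)
    calc (bern (p : ℝ) W (OKs b j f D)) ^ (Wᶜ).card ≤ c ^ (Wᶜ).card :=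
          pow_le_pow_left₀ hb0 hb _
      _ ≤ c ^ (n - (i + 1) - Nj b j) := by
          apply pow_le_pow_of_le_one hc0 hc1
          rw [card_compl, ← hnn]
          have h2 : W.card ≤ (i + 1) + Nj b j := by
            rw [hW]
            refine (card_union_le _ _).trans ?_
            have := card_labels b j f
            rw [hD.2]; omega
          omega
  calc (binomialRandom V p).real {G | gammaMB G b ≤ ((i + 1 + j : ℕ) : ℕ∞)}
      ≤ (binomialRandom V p).real (⋃ D ∈ powersetCard (i + 1) (univ : Finset V),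
        ⋃ f ∈ (univ : Finset (LTree V b j)).filter (fun f => GoodT b j f D),
          {G : SimpleGraph V | AllDom G b j f D}) := measureReal_mono hsub (measure_ne_top _ _)
    _ ≤ ∑ D ∈ powersetCard (i + 1) (univ : Finset V), (binomialRandom V p).real
        (⋃ f ∈ (univ : Finset (LTree V b j)).filter (fun f => GoodT b j f D),
          {G : SimpleGraph V | AllDom G b j f D}) := measureReal_biUnion_finset_le _ _
    _ ≤ ∑ D ∈ powersetCard (i + 1) (univ : Finset V),
        ∑ f ∈ (univ : Finset (LTree V b j)).filter (fun f => GoodT b j f D),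
          (binomialRandom V p).real {G : SimpleGraph V | AllDom G b j f D} :=
        sum_le_sum (fun D _ => measureReal_biUnion_finset_le _ _)
    _ ≤ ∑ D ∈ powersetCard (i + 1) (univ : Finset V),
        ∑ f ∈ (univ : Finset (LTree V b j)).filter (fun f => GoodT b j f D),
          c ^ (n - (i + 1) - Nj b j) :=
        sum_le_sum (fun D hD => sum_le_sum (fun f hf => hone D hD f hf))
    _ ≤ ∑ D ∈ powersetCard (i + 1) (univ : Finset V),
          ((n : ℝ) ^ (Nj b j) * c ^ (n - (i + 1) - Nj b j)) := by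
        apply sum_le_sum
        intro D _
        rw [sum_const, nsmul_eq_mul]
        apply mul_le_mul_of_nonneg_right _ (by positivity)
        have : ((univ : Finset (LTree V b j)).filter (fun f => GoodT b j f D)).card ≤
            n ^ (Nj b j) := by
          rw [hnn, ← card_LTree b j]
          exact (card_filter_le _ _)
        exact_mod_cast this
    _ ≤ (n : ℝ) ^ (i + 1) * ((n : ℝ) ^ (Nj b j) * c ^ (n - (i + 1) - Nj b j)) := by
        rw [sum_const, nsmul_eq_mul]
        apply mul_le_mul_of_nonneg_right _ (by positivity)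
        have : (powersetCard (i + 1) (univ : Finset V)).card ≤ n ^ (i + 1) := by
          rw [card_powersetCard, card_univ, ← hnn]
          exact Nat.choose_le_pow _ _
        exact_mod_cast this

end Pool.Agent.Work.MP_dfc2f8_pr
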